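import Pool.Agent.helper64.TP.SpecE
import Pool.Agent.helper49.SP.Defs

/-!
# Project sp (MP_7800de_pr), part CH: the chain lemma with weights

Everything is for the law `P1` of one configuration (fair coins of the bricks). `F4 x a b` is the
event of four alternating arms in the annulus of radii `2 ^ a`, `2 ^ b`; `S4 x t i` are arms from
`bd x (2 ^ t)` (free) with standard end points at radius `2 ^ i`; `B4 x a b` are arms with standard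
end points at both radii `2 ^ a`, `2 ^ b`. Weights are nonnegative functions of the coins which are
local in the sense of colours. `EZ Z F` is the integral of `Z` over the event `F`.

The planar notions (`Std`, `Fam`, `Dmark`, `Dfree`, ...) and the planar statements (`FA_stmt`,
`AM_stmt`, `SF_stmt`, `MF_stmt`, ...) are those of project dp (`open DP`), they are statements about
arbitrary colourings.
-/

namespace TP

open DP MeasureTheory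

/-! ## Weights -/

/-- `Z` depends only on the colours of finitely many sites, all in `A`. -/
def LocF (Z : (V → Bool) → ℝ) (A : Set V) : Prop :=
  ∃ Λ : Finset V, (Λ : Set V) ⊆ A ∧
    ∀ b b' : V → Bool, (∀ v ∈ Λ, b (br v) = b' (br v)) → Z b = Z b'

/-- The integral of `Z` over the event `F`. -/
noncomputable def EZ (Z : (V → Bool) → ℝ) (F : Set (V → Bool)) : ℝ := ∫ b in F, Z b ∂P1

/-- Four arms between the radii `2 ^ a` and `2 ^ b`. -/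
def F4 (x : V) (a b : ℕ) : Set (V → Bool) := Ev fun c => four c x (2 ^ a) (2 ^ b)

/-- Arms from `bd x (2 ^ t)` with standard end points at radius `2 ^ i`. -/
def S4 (x : V) (t i : ℕ) : Set (V → Bool) :=
  Ev fun c => Std c 4 true x (2 ^ i) (Dfree true x (2 ^ t))

/-- Arms with standard end points at both radii `2 ^ a` and `2 ^ b`. -/
def B4 (x : V) (a b : ℕ) : Set (V → Bool) :=
  Ev fun c => Std c 4 true x (2 ^ b) (Dmark 4 x (2 ^ a))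

/-- The hypotheses on the weights `w 0, ..., w (J - 1)` at the centre `x`, above scale `t`. -/
structure Wts (x : V) (t J : ℕ) (lo hi : ℕ → ℕ) (w : ℕ → (V → Bool) → ℝ) : Prop where
  nonneg : ∀ j < J, ∀ b, 0 ≤ w j b
  half : ∀ j < J, ∀ b, w j b ≤ 1 / 2
  loc : ∀ j < J, LocF (w j) (ann x (2 ^ lo j) (2 ^ hi j))
  start : ∀ j < J, t + 6 ≤ lo j
  le : ∀ j < J, lo j ≤ hi j
  gap : ∀ j j', j < j' → j' < J → hi j + 6 ≤ lo j'

namespace K

/-- WL (linearity). An inequality for all local events `X` holds for all weights.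
Proof: `Z` takes finitely many values `z` (it is a function of the finitely many coins `br v`,
`v ∈ Λ`); `X_z = {b | Z b = z}` is `Loc` in `A`; `EZ Z E = ∑ z, z * Pr (X_z ∩ E)`. -/
def WL_stmt : Prop :=
  ∀ (A B : Set V) (Z : (V → Bool) → ℝ) (E F G : Set (V → Bool)) (α β γ : ℝ), LocF Z A →
    (∀ b, 0 ≤ Z b) → Loc E B → Loc F B → Loc G B →
    (∀ X, Loc X A → α * Pr (X ∩ E) ≤ β * Pr (X ∩ F) + γ * Pr (X ∩ G)) →
      α * EZ Z E ≤ β * EZ Z F + γ * EZ Z G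

/-- WI (independence). From `Bindep_stmt` with `ρ = 0` (`Bzero_stmt`), or directly from
`Pr (X ∩ Y) = Pr X * Pr Y`, and finite sums as in WL. -/
def WI_stmt : Prop :=
  ∀ (A A' : Set V) (Z W : (V → Bool) → ℝ) (E E' : Set (V → Bool)), BDis A A' → LocF Z A →
    LocF W A' → Loc E A → Loc E' A' →
      EZ (fun b => Z b * W b) (E ∩ E') = EZ Z E * EZ W E'

/-- WB (basic rules): constant weight, monotonicity in the event and in the weight, products and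
complements of local weights are local. -/
def WB_stmt : Prop :=
  (∀ F, EZ (fun _ => 1) F = Pr F) ∧
  (∀ (Z Z' : (V → Bool) → ℝ) (E F : Set (V → Bool)) (A B : Set V), LocF Z A → LocF Z' A → Loc E B →
    Loc F B → E ⊆ F → (∀ b, 0 ≤ Z b) → (∀ b, Z b ≤ Z' b) → EZ Z E ≤ EZ Z' F) ∧
  (∀ (Z : (V → Bool) → ℝ) (r : ℝ) (F : Set (V → Bool)), EZ (fun b => r * Z b) F = r * EZ Z F) ∧
  (∀ (Z W : (V → Bool) → ℝ) (A A' : Set V) (F : Set (V → Bool)) (B : Set V), LocF Z A →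
    LocF W A' → Loc F B →
      LocF (fun b => Z b * W b) (A ∪ A') ∧ LocF (fun b => 1 - W b) A' ∧
        EZ (fun b => Z b * (1 - W b)) F = EZ Z F - EZ (fun b => Z b * W b) F) ∧
  (∀ (Z : (V → Bool) → ℝ) (A A' : Set V), A ⊆ A' → LocF Z A → LocF Z A') ∧
  (∀ (r : ℝ) (A : Set V), LocF (fun _ => r) A) ∧
  (∀ (Z : (V → Bool) → ℝ) (F : Set (V → Bool)), (∀ b, 0 ≤ Z b) → 0 ≤ EZ Z F) ∧
  (∀ (Y F : Set (V → Bool)) (A B : Set V) (r : ℝ), Loc Y A → Loc F B →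
    LocF (Y.indicator fun _ => r) A ∧ EZ (Y.indicator fun _ => r) F = r * Pr (Y ∩ F))

/-! ## Interface with the port (parts D, E of project dp for bricks) -/

/-- SX1: `SE1_stmt` of the port for `j = 4`, `s = true`, `ρ = 0`, `X = X'`. -/
def SX1_stmt : Prop :=
  ∃ c₁ : ℝ, 0 < c₁ ∧ ∃ i₁ : ℕ, ∀ (x : V) (D : Dat) (X : Set (V → Bool)) (i : ℕ),
    Even (x.1 + x.2) → i₁ ≤ i → D.ok true x (2 ^ (i - 1)) → Loc X (box x (2 ^ (i - 1))) →
      c₁ * Pr (X ∩ Ev fun c => Std c 4 true x (2 ^ i) D) ≤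
        Pr (X ∩ Ev fun c => Std c 4 true x (2 ^ (i + 1)) D)

/-- SX3: `SE3_stmt` of the port for `j = 4`, `s = true`, `ρ = 0`, `X = X'` and
`Y = X ∩ (free arms at radius 2 ^ (i - 1))`. -/
def SX3_stmt : Prop :=
  ∀ ε : ℝ, 0 < ε → ∃ C : ℝ, 0 < C ∧ ∃ i₁ : ℕ, ∀ (x : V) (D : Dat) (X : Set (V → Bool)) (i : ℕ),
    Even (x.1 + x.2) → i₁ ≤ i → D.ok true x (2 ^ (i - 1)) → Loc X (box x (2 ^ (i - 1))) →
    (∀ c, Fam c 4 true x (2 ^ i) D → Fam c 4 true x (2 ^ (i - 1)) D) →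
      Pr (X ∩ Ev fun c => Fam c 4 true x (2 ^ i) D) ≤
        C * Pr (X ∩ Ev fun c => Std c 4 true x (2 ^ (i + 1)) D) +
          ε * Pr (X ∩ Ev fun c => Fam c 4 true x (2 ^ (i - 1)) D)

/-- SEP: outer separation from a free inner end (`SEPO_stmt` and `LB_stmt` of the port, `FA_stmt`). -/
def SEP_stmt : Prop :=
  ∃ C : ℝ, 0 < C ∧ ∃ i₁ : ℕ, ∀ (x : V) (t i : ℕ), Even (x.1 + x.2) → i₁ ≤ t → t + 1 ≤ i →
    Pr (F4 x t i) ≤ C * Pr (S4 x t (i + 1))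

/-- BTH: `BOTH_stmt` of the port for `j = 4`, `ρ = 0`. -/
def BTH_stmt : Prop :=
  ∃ C : ℝ, 0 < C ∧ ∃ i₁ : ℕ, ∀ (x : V) (a b : ℕ), Even (x.1 + x.2) → i₁ ≤ a → a + 4 ≤ b →
    Pr (F4 x a b) ≤ C * Pr (B4 x (a - 1) (b + 1))

/-- LQ: locality and inclusions of the events. (`four c x m n` depends only on the colours in
`ann x m n`; `AM_stmt`, `MF_stmt`, `SF_stmt`, `FA_stmt` of project dp for the inclusions.) -/
def LQ_stmt : Prop :=
  (∀ (x : V) (a b : ℕ), Loc (F4 x a b) (ann x (2 ^ a) (2 ^ b))) ∧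
  (∀ (x : V) (t i : ℕ), t ≤ i → Loc (S4 x t i) (ann x (2 ^ t) (2 ^ i))) ∧
  (∀ (x : V) (a b : ℕ), a ≤ b → Loc (B4 x a b) (ann x (2 ^ a) (2 ^ b))) ∧
  (∀ (x : V) (a a' b' b : ℕ), a ≤ a' → a' ≤ b' → b' ≤ b → F4 x a b ⊆ F4 x a' b') ∧
  (∀ (x : V) (t i : ℕ), Even (x.1 + x.2) → 6 ≤ i → t < i → S4 x t i ⊆ F4 x t i) ∧
  (∀ (x : V) (a b : ℕ), Even (x.1 + x.2) → 6 ≤ a → a < b → B4 x a b ⊆ F4 x a b)

/-! ## Gluing -/

/-- GD (deterministic gluing). Arms with data `D` and standard end points at radius `2 ^ (i + 1)`,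
arms standard at the radii `2 ^ (i + 2)` and `n`, and loops in the chains of cells of size
`2 ^ (i - 9)` on the rays between them (as in `GL_stmt` of project dp, whose proof
`Pool/Agent/helper62/DP/GL.lean` or `Pool/Agent/helper95/DP/GL.lean` can be adapted): the result
are arms with data `D` and standard end points at radius `n`. For each colour the two patterns
(identity or rotation of the indices by two) compose. The inner arms and the loops avoid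
`opp j (zpt x n) (n / 8) k` because `2 ^ (i + 3) ≤ n`; the loops and the outer arms avoid
`D.N k ⊆ box x (2 ^ i)`. -/
def GD_stmt : Prop :=
  ∀ (c : V → Bool) (j : ℕ) (x : V) (D : Dat) (i n : ℕ) (gs : ℕ → List V), j = 2 ∨ j = 4 →
    Even (x.1 + x.2) → 10 ≤ i → 2 ^ (i + 3) ≤ n → D.ok true x (2 ^ i) →
    Std c j true x (2 ^ (i + 1)) D → Std c j true x n (Dmark j x (2 ^ (i + 2))) →
    (∀ l < j, (∃ S, Loop c (kol l) (zpt x (2 ^ (i + 1)) l) (2 ^ (i - 4)) S) ∧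
      (∃ S, Loop c (kol l) (zpt x (2 ^ (i + 2)) l) (2 ^ (i - 3)) S) ∧
      gs l = (List.range (2 ^ 9 + 1)).map (fun t => zpt x (2 ^ (i + 1) + 2 * t * 2 ^ (i - 9)) l) ∧
      Full c (kol l) (2 ^ (i - 9)) (gs l)) →
        Std c j true x n D

/-- GP (gluing in probability, arbitrary events inside and outside): from GD, `Bgen_stmt` of the
port (with its arbitrary event `X`), `C1_stmt`, `Bfkg_stmt`, `Bindep_stmt`, exactly as in
`QM_glue` of `Pool/Agent/helper95/DP/QM.lean`. The loops live at distances between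
`2 ^ (i + 1) - 3 * 2 ^ (i - 4)` and `2 ^ (i + 2) + 3 * 2 ^ (i - 3)` of `x`; take `Sp`, `Sm` closed
under bricks and `S` the complement of `Sp ∪ Sm`. -/
def GP_stmt : Prop :=
  ∃ c₄ : ℝ, 0 < c₄ ∧ ∃ i₁ : ℕ, ∀ (x : V) (D : Dat) (X Y : Set (V → Bool)) (i n : ℕ),
    Even (x.1 + x.2) → i₁ ≤ i → i + 3 ≤ n → D.ok true x (2 ^ i) → Loc X (box x (2 ^ i)) →
    Loc Y (ann x (2 ^ (i + 3)) (2 ^ n)) →
      c₄ * (Pr (X ∩ Ev fun c => Std c 4 true x (2 ^ (i + 1)) D) * Pr (Y ∩ B4 x (i + 2) n)) ≤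
        Pr (X ∩ (Y ∩ Ev fun c => Std c 4 true x (2 ^ n) D))

/-- GZ (gluing of weights): GP and WL twice (first for fixed `X` as a statement about `Y`, then
for `X`). -/
def GZ_stmt : Prop :=
  ∃ c₄ : ℝ, 0 < c₄ ∧ ∃ i₁ : ℕ, ∀ (x : V) (D : Dat) (Z W : (V → Bool) → ℝ) (i n : ℕ),
    Even (x.1 + x.2) → i₁ ≤ i → i + 3 ≤ n → D.ok true x (2 ^ i) → LocF Z (box x (2 ^ i)) →
    LocF W (ann x (2 ^ (i + 3)) (2 ^ n)) → (∀ b, 0 ≤ Z b) → (∀ b, 0 ≤ W b) →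
      c₄ * (EZ Z (Ev fun c => Std c 4 true x (2 ^ (i + 1)) D) * EZ W (B4 x (i + 2) n)) ≤
        EZ (fun b => Z b * W b) (Ev fun c => Std c 4 true x (2 ^ n) D)

/-- GB (gluing of two blocks standard at both ends): GZ for `D = Dmark 4 x (2 ^ a)`. -/
def GB_stmt : Prop :=
  ∃ c₄ : ℝ, 0 < c₄ ∧ ∃ i₁ : ℕ, ∀ (x : V) (Z W : (V → Bool) → ℝ) (a i n : ℕ),
    Even (x.1 + x.2) → i₁ ≤ a → a + 1 ≤ i → i + 3 ≤ n → LocF Z (box x (2 ^ i)) →
    LocF W (ann x (2 ^ (i + 3)) (2 ^ n)) → (∀ b, 0 ≤ Z b) → (∀ b, 0 ≤ W b) →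
      c₄ * (EZ Z (B4 x a (i + 1)) * EZ W (B4 x (i + 2) n)) ≤
        EZ (fun b => Z b * W b) (B4 x a n)

/-! ## Recursion -/

/-- REC (separation with an inner weight): if the ratio of free and standard arms at the first
scale after the support of `Z` is at most `B`, it is at most `2 C₀ + B / 2 ^ k` after `k` scales.
Proof: SX3 with `ε = c₁ / 2`, SX1, WL; `C₀` is the constant of SX3. `FA_stmt` and `AM_stmt` give
the restriction hypothesis of SX3 and the identification of `F4` with `Fam` for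
`D = Dfree true x (2 ^ t)`, see `Pool/Agent/helper95/DP/QM.lean`; `D.ok` is `EXT_okT` there. -/
def REC_stmt : Prop :=
  ∃ C₀ : ℝ, 0 < C₀ ∧ ∃ i₁ : ℕ, ∀ (x : V) (t r : ℕ) (Z : (V → Bool) → ℝ) (B : ℝ),
    Even (x.1 + x.2) → i₁ ≤ t → t + 1 ≤ r → LocF Z (box x (2 ^ r)) → (∀ b, 0 ≤ Z b) → 0 ≤ B →
    EZ Z (F4 x t (r + 1)) ≤ B * EZ Z (S4 x t (r + 2)) →
      ∀ k : ℕ, EZ Z (F4 x t (r + 1 + k)) ≤ (2 * C₀ + B / 2 ^ k) * EZ Z (S4 x t (r + 2 + k))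

/-- IND (separation with a product of weights): induction on `J`. For `J = 0` this is SEP. Step:
with `Z' = ∏ j < J, (1 - w j)` and `Z = Z' (1 - w J)` one has `Z ≤ Z' ≤ 2 Z`, so
`EZ Z (F4 x t (hi J + 1)) ≤ EZ Z' (F4 ..) ≤ C EZ Z' (S4 x t (hi J + 2)) ≤ 2 C EZ Z (S4 ..)`; now REC
with `r = hi J`, `B = 2 C` and `k ≥ 2`: `2 C₀ + 2 C / 4 ≤ C` if `C = max (constant of SEP) (4 C₀)`. -/
def IND_stmt : Prop :=
  ∃ C : ℝ, 0 < C ∧ ∃ i₁ : ℕ, ∀ (x : V) (t J : ℕ) (lo hi : ℕ → ℕ) (w : ℕ → (V → Bool) → ℝ),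
    Even (x.1 + x.2) → i₁ ≤ t → Wts x t J lo hi w → ∀ i, t + 1 ≤ i → (∀ j < J, hi j + 3 ≤ i) →
      EZ (fun b => ∏ j ∈ Finset.range J, (1 - w j b)) (F4 x t i) ≤
        C * EZ (fun b => ∏ j ∈ Finset.range J, (1 - w j b)) (S4 x t (i + 1))

/-- UPP (upper bound by independence): `F4 x t I` is contained in the intersection of the arms in
three annuli (LQ), which are brick-disjoint (WI twice, `BDis.of_sd`). -/
def UPP_stmt : Prop :=
  ∀ (x : V) (t a lo hi I : ℕ) (Z : (V → Bool) → ℝ), 1 ≤ a → t ≤ a → a + 1 ≤ lo → lo ≤ hi →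
    hi + 3 ≤ I → LocF Z (box x (2 ^ a)) → (∀ b, 0 ≤ Z b) →
      EZ Z (F4 x t I) ≤ EZ Z (F4 x t a) * (Pr (F4 x lo hi) * Pr (F4 x (hi + 3) I))

/-- STEP (one block). Proof: with `S = EZ Z (S4 x t (lo - 2))`,
`EZ (Z w) (F4 x t I) ≥ EZ (Z w) (S4 x t (I + 1)) ≥ c₄ EZ (Z w) (S4 x t (hi + 1)) Pr (B4 x (hi + 2) (I + 1))`
(GZ with weight `W = 1`) `≥ c₄² S EZ w (B4 x (lo - 1) (hi + 1)) Pr (B4 x (hi + 2) (I + 1))` (GZ with
`i = lo - 3`), the last factor is at least `Pr (F4 x (hi + 3) I) / C` (BTH); and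
`EZ Z (F4 x t I) ≤ EZ Z (F4 x t (lo - 3)) Pr (F4 x lo hi) Pr (F4 x (hi + 3) I)` (UPP). -/
def STEP_stmt : Prop :=
  ∀ C : ℝ, 0 < C → ∃ c : ℝ, 0 < c ∧ ∃ i₁ : ℕ, ∀ (x : V) (t lo hi I : ℕ)
    (Z w : (V → Bool) → ℝ) (a : ℝ), Even (x.1 + x.2) → i₁ ≤ t → t + 6 ≤ lo → lo ≤ hi → hi + 7 ≤ I →
    LocF Z (box x (2 ^ (lo - 3))) → (∀ b, 0 ≤ Z b) → LocF w (ann x (2 ^ lo) (2 ^ hi)) →
    (∀ b, 0 ≤ w b) → EZ Z (F4 x t (lo - 3)) ≤ C * EZ Z (S4 x t (lo - 2)) → 0 ≤ a →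
    a * Pr (F4 x lo hi) ≤ EZ w (B4 x (lo - 1) (hi + 1)) →
      c * a * EZ Z (F4 x t I) ≤ EZ (fun b => Z b * w b) (F4 x t I)

/-- CHS, one step of the chain lemma. From IND (at `i = lo J - 3`), STEP with
`Z = ∏ j < J, (1 - w j)` and WB (`EZ (Z (1 - w J)) = EZ Z - EZ (Z w J)`). -/
def CHS_stmt : Prop :=
  ∃ c : ℝ, 0 < c ∧ ∃ i₁ : ℕ, ∀ (x : V) (t I J : ℕ) (lo hi : ℕ → ℕ) (w : ℕ → (V → Bool) → ℝ)
    (a : ℝ), Even (x.1 + x.2) → i₁ ≤ t → Wts x t (J + 1) lo hi w → hi J + 7 ≤ I → 0 ≤ a →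
    a * Pr (F4 x (lo J) (hi J)) ≤ EZ (w J) (B4 x (lo J - 1) (hi J + 1)) →
      EZ (fun b => ∏ j ∈ Finset.range (J + 1), (1 - w j b)) (F4 x t I) ≤
        (1 - c * a) * EZ (fun b => ∏ j ∈ Finset.range J, (1 - w j b)) (F4 x t I)

/-- CHE, THE CHAIN LEMMA, exponential form. From CHS by induction on `J`:
`(1 - c a) E ≤ exp (- c a) E` for `E ≥ 0`. -/
def CHE_stmt : Prop :=
  ∃ c : ℝ, 0 < c ∧ ∃ i₁ : ℕ, ∀ (x : V) (t I J : ℕ) (lo hi : ℕ → ℕ) (w : ℕ → (V → Bool) → ℝ)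
    (a : ℕ → ℝ), Even (x.1 + x.2) → i₁ ≤ t → Wts x t J lo hi w → (∀ j < J, hi j + 7 ≤ I) →
    (∀ j < J, 0 ≤ a j) →
    (∀ j < J, a j * Pr (F4 x (lo j) (hi j)) ≤ EZ (w j) (B4 x (lo j - 1) (hi j + 1))) →
      EZ (fun b => ∏ j ∈ Finset.range J, (1 - w j b)) (F4 x t I) ≤
        Real.exp (-(c * ∑ j ∈ Finset.range J, a j)) * Pr (F4 x t I)

/-- CHX, the form used for events: if `Y j` are events in the blocks (`θ j ≤ 1 / 2`), then
`E[1_four ∏ (1 - θ j 1_(Y j))] ≤ exp (- c ∑ θ j a j) Pr four`, in particular (all `θ j = 1 / 2`,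
monotonicity) the probability that none of the `Y j` occurs. From CHE with
`w j = (Y j).indicator (θ j)`, WB. -/
def CHX_stmt : Prop :=
  ∃ c : ℝ, 0 < c ∧ ∃ i₁ : ℕ, ∀ (x : V) (t I J : ℕ) (lo hi : ℕ → ℕ) (Y : ℕ → Set (V → Bool))
    (θ a : ℕ → ℝ), Even (x.1 + x.2) → i₁ ≤ t → (∀ j < J, Loc (Y j) (ann x (2 ^ lo j) (2 ^ hi j))) →
    (∀ j < J, t + 6 ≤ lo j ∧ lo j ≤ hi j ∧ hi j + 7 ≤ I) →
    (∀ j j', j < j' → j' < J → hi j + 6 ≤ lo j') → (∀ j < J, 0 ≤ θ j ∧ θ j ≤ 1 / 2) →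
    (∀ j < J, 0 ≤ a j ∧ a j * Pr (F4 x (lo j) (hi j)) ≤ Pr (Y j ∩ B4 x (lo j - 1) (hi j + 1))) →
      EZ (fun b => ∏ j ∈ Finset.range J, (1 - (Y j).indicator (fun _ => θ j) b)) (F4 x t I) ≤
          Real.exp (-(c * ∑ j ∈ Finset.range J, θ j * a j)) * Pr (F4 x t I) ∧
        Pr (F4 x t I ∩ {b | ∀ j < J, b ∉ Y j}) ≤
          Real.exp (-(c / 2 * ∑ j ∈ Finset.range J, a j)) * Pr (F4 x t I)

/-! ## Gates inside blocks -/

/-- Three black crossing clusters are rare (piece GA, `N3`). -/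
def N3I_stmt : Prop :=
  ∃ C α : ℝ, 0 < C ∧ 0 < α ∧ ∃ i₁ : ℕ, ∀ (x : V) (a b : ℕ), Even (x.1 + x.2) → i₁ ≤ a → a < b →
    Pr (Ev fun c => Three c x (2 ^ a) (2 ^ b)) ≤ C * (2 : ℝ) ^ (-(α * ((b : ℝ) - a))) * Pr (F4 x a b)

/-- GSB: an annulus of large ratio is a gate with standard arms at both ends. From BTH, N3I, LQ:
`Pr (B4 (a - 1) (b + 1) ∩ Gate) ≥ Pr (B4 ..) - Pr (Three) ≥ (1 / C - 1 / (2 C)) Pr (F4 x a b)`. -/
def GSB_stmt : Prop :=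
  ∃ c : ℝ, 0 < c ∧ ∃ g i₁ : ℕ, ∀ (x : V) (a b : ℕ), Even (x.1 + x.2) → i₁ ≤ a → a + g ≤ b →
    c * Pr (F4 x a b) ≤ Pr ((Ev fun c => Gate c x (2 ^ a) (2 ^ b)) ∩ B4 x (a - 1) (b + 1))

/-- LG: locality of gates. -/
def LG_stmt : Prop :=
  ∀ (x : V) (a b : ℕ), Loc (Ev fun c => Gate c x (2 ^ a) (2 ^ b)) (ann x (2 ^ a) (2 ^ b)) ∧
    Loc (Ev fun c => Three c x (2 ^ a) (2 ^ b)) (ann x (2 ^ a) (2 ^ b))

/-! ## The numbers `a4`, `a6` -/

/-- QAA: the part of `QA_stmt` about `a4`, `a6` (all the constants): `six` is contained in `four` for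
brick colourings if `p < q` (take `v` in the annulus with a white brick; if there is none, recolouring
one brick cannot produce two crossing clusters: or use `UI3_stmt` of helper33/SP/SpecC1, four arms of
the recoloured colouring contain two white arms ending at two sites of `bd x m` in different bricks);
`EXT_stmt`, `AM_stmt`. -/
def QAA_stmt : Prop :=
  (∀ p q, 0 ≤ a4 p q ∧ a4 p q ≤ 1) ∧ (∀ p q, 0 ≤ a6 p q) ∧ (∀ p q, p < q → a6 p q ≤ a4 p q) ∧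
  ∃ (C : ℝ) (k₀ : ℕ), 1 ≤ C ∧ (∀ p m, k₀ ≤ p → 1 ≤ a4 p (p + m) * C ^ (m + 1)) ∧
    ∀ p q, k₀ ≤ p → p + 2 < q → a4 (p + 1) (q - 1) ≤ C * a4 p q

end K

end TP
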