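import Pool.Agent.helper95.SP.VA19

/-!
# SP, C2S, VA14: independence of the annuli
-/

namespace TP

open DP MeasureTheory

theorem VA14_w (z : V) (p h g : ℕ) (b : V → Bool) :
    0 ≤ wpar z p h g b ∧ wpar z p h g b ≤ 1 / 2 := by
  have hP : IsProbabilityMeasure P1 := by unfold P1; infer_instance
  have h1 : 0 ≤ (gts z p h g ∩ thr z p h g).indicator (1 : (V → Bool) → ℝ) b :=
    Set.indicator_nonneg (fun _ _ => zero_le_one) b
  have h2 : (gts z p h g ∩ thr z p h g).indicator (1 : (V → Bool) → ℝ) b ≤ 1 :=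
    Set.indicator_le_self' (fun _ _ => zero_le_one) b
  have h3 : 0 ≤ cpr (Ag z p h) (thr z p h g) (flp (fI z p) b) := measureReal_nonneg
  have h4 : cpr (Ag z p h) (thr z p h g) (flp (fI z p) b) ≤ 1 := measureReal_le_one
  unfold wpar
  constructor
  · positivity
  · nlinarith

theorem VA14_one {Z : (V → Bool) → ℝ} {A : Set V} (h : LocF Z A) : LocF (fun b => 1 - Z b) A := by
  obtain ⟨Λ, h1, h2⟩ := h
  exact ⟨Λ, h1, fun b b' hb => by show _ - _ = _ - _; rw [h2 b b' hb]⟩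

theorem VA14_const (r : ℝ) (A : Set V) : LocF (fun _ => r) A :=
  ⟨∅, by simp, fun _ _ _ => rfl⟩

theorem VA14_Nf (h7 : VA7_stmt) {z : V} {g h : ℕ} (hz : (z.1 + z.2) % 2 = 0) (hg : 1 ≤ g)
    (hh : 1 ≤ h) (P J : ℕ) :
    LocF (Nf z g h P J) (ann z (2 ^ P) (2 ^ (P + J * (2 * g + h + 10)))) := by
  induction J with
  | zero =>
    refine ⟨∅, by simp, fun _ _ _ => ?_⟩
    unfold Nf
    simp
  | succ J ih =>
    have h1 := h7 z (zx g h P J) h g hz (by unfold zx; omega) hg hh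
    have e : Nf z g h P (J + 1) = fun b => Nf z g h P J b * (1 - wf z g h P J b) := by
      funext b
      unfold Nf
      rw [Finset.prod_range_succ]
    rw [e]
    refine VA19_monoLoc (VA19_mulLoc ih (VA14_one h1.2.1)) ?_
    have e2 : (J + 1) * (2 * g + h + 10) = J * (2 * g + h + 10) + (2 * g + h + 10) := by ring
    rintro v (hv | hv)
    · refine ⟨hv.1, hv.2.trans ?_⟩
      exact Nat.pow_le_pow_right (by norm_num) (by omega)
    · refine ⟨le_trans ?_ hv.1, hv.2.trans ?_⟩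
      · exact Nat.pow_le_pow_right (by norm_num) (by unfold zx; omega)
      · exact Nat.pow_le_pow_right (by norm_num) (by unfold zx; omega)

theorem VA14 (hWI : K.WI_stmt) (hWB : K.WB_stmt) (hLQ : K.LQ_stmt) (hUI7 : UI7_stmt)
    (hUJ5 : UJ5_stmt) (h7 : VA7_stmt) (h8 : VA8_stmt) : VA14_stmt := by
  classical
  have hP : IsProbabilityMeasure P1 := by unfold P1; infer_instance
  intro i N t p m s g h J x y G
  have hJ := G.hJ
  have hs := G.hs
  have ht := G.ht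
  have hN := G.hN
  have hx : (x.1 + x.2) % 2 = 0 := G.even
  have hm1 : 13 ≤ m := by omega
  have e2 : (2 : ℤ) ^ (p + m + s) = 2 * 2 ^ (p + m + s - 1) := by
    rw [← pow_succ']
    congr 1
    omega
  have hy : (y.1 + y.2) % 2 = 0 := by
    rcases G.y_eq with h | h <;> rw [h] <;> simp only <;> omega
  have hxy : sd x y = 2 ^ (p + m + s) := by
    rcases G.y_eq with h | h <;> rw [h] <;> unfold sd <;> simp
  -- events
  set E1 := F4 x (p + 3) (p + m) with hE1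
  set E2 := F4 y (p + 3) (p + m) with hE2
  set E3 := F4 x (p + m + 3 * s) (p + m + 3 * s + m - 3) with hE3
  set A1 := ann x (2 ^ (p + 3)) (2 ^ (p + m)) with hA1
  set A2 := ann y (2 ^ (p + 3)) (2 ^ (p + m)) with hA2
  set A3 := ann x (2 ^ (p + m + 3 * s)) (2 ^ (p + m + 3 * s + m - 3)) with hA3
  have l1 : Loc E1 A1 := hLQ.1 _ _ _
  have l2 : Loc E2 A2 := hLQ.1 _ _ _
  have l3 : Loc E3 A3 := hLQ.1 _ _ _
  have q0 : 16 ≤ 2 ^ (p + m) := by
    calc 16 = 2 ^ 4 := by norm_num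
      _ ≤ 2 ^ (p + m) := Nat.pow_le_pow_right (by norm_num) (by omega)
  have q1 : 16 * 2 ^ (p + m) ≤ 2 ^ (p + m + s) := by
    calc 16 * 2 ^ (p + m) = 2 ^ (p + m + 4) := by rw [pow_add]; ring
      _ ≤ 2 ^ (p + m + s) := Nat.pow_le_pow_right (by norm_num) (by omega)
  have q2 : 16 * 2 ^ (p + m + s) ≤ 2 ^ (p + m + 3 * s) := by
    calc 16 * 2 ^ (p + m + s) = 2 ^ (p + m + s + 4) := by rw [pow_add]; ring
      _ ≤ 2 ^ (p + m + 3 * s) := Nat.pow_le_pow_right (by norm_num) (by omega)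
  have d12 : BDis A1 (A2 ∪ A3) := by
    apply BDis.of_sd
    rintro v hv w (hw | hw)
    · have a1 : sd x v ≤ 2 ^ (p + m) := hv.2
      have a2 : sd y w ≤ 2 ^ (p + m) := hw.2
      have a3 : sd x y ≤ sd x v + sd v y := sd_triangle x v y
      have a4 : sd v y ≤ sd v w + sd w y := sd_triangle v w y
      rw [sd_comm w y] at a4
      omega
    · have a1 : sd x v ≤ 2 ^ (p + m) := hv.2
      have a2 : 2 ^ (p + m + 3 * s) ≤ sd x w := hw.1
      have a3 : sd x w ≤ sd x v + sd v w := sd_triangle x v w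
      omega
  have d23 : BDis A2 A3 := by
    apply BDis.of_sd
    intro v hv w hw
    have a1 : sd y v ≤ 2 ^ (p + m) := hv.2
    have a2 : 2 ^ (p + m + 3 * s) ≤ sd x w := hw.1
    have a3 : sd x w ≤ sd x y + sd y w := sd_triangle x y w
    have a4 : sd y w ≤ sd y v + sd v w := sd_triangle y v w
    omega
  have p1 : Pr E1 = a4 (p + 3) (p + m) := (hUI7.2 x _ _ hx).1
  have p2 : Pr E2 = a4 (p + 3) (p + m) := (hUI7.2 y _ _ hy).1
  have p3 : Pr E3 = a4 (p + m + 3 * s) (p + m + 3 * s + m - 3) := (hUI7.2 x _ _ hx).1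
  -- the weights
  have n1 : LocF (Nf x g h (p + 3) J) A1 := by
    refine VA19_monoLoc (VA14_Nf h7 hx G.hg G.hh (p + 3) J) ?_
    intro v hv
    exact ⟨hv.1, hv.2.trans (Nat.pow_le_pow_right (by norm_num) (by omega))⟩
  have n2 : LocF (Nf y g h (p + 3) J) A2 := by
    refine VA19_monoLoc (VA14_Nf h7 hy G.hg G.hh (p + 3) J) ?_
    intro v hv
    exact ⟨hv.1, hv.2.trans (Nat.pow_le_pow_right (by norm_num) (by omega))⟩
  have n3 : LocF (Nf x g h (p + m + 3 * s) J) A3 := by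
    refine VA19_monoLoc (VA14_Nf h7 hx G.hg G.hh (p + m + 3 * s) J) ?_
    intro v hv
    exact ⟨hv.1, hv.2.trans (Nat.pow_le_pow_right (by norm_num) (by omega))⟩
  have c1 : ∀ A : Set V, LocF (fun _ => (1 : ℝ)) A := fun A => VA14_const 1 A
  have one : ∀ F, EZ (fun _ => 1) F = Pr F := hWB.1
  -- the three products
  have t23 : Pr (E2 ∩ E3) = Pr E2 * Pr E3 := by
    have := hWI A2 A3 (fun _ => 1) (fun _ => 1) E2 E3 d23 (c1 _) (c1 _) l2 l3
    simp only [mul_one, one] at this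
    exact this
  have t1 : EZ (Nf x g h (p + 3) J) (E1 ∩ (E2 ∩ E3)) =
      EZ (Nf x g h (p + 3) J) E1 * (Pr E2 * Pr E3) := by
    have := hWI A1 (A2 ∪ A3) (Nf x g h (p + 3) J) (fun _ => 1) E1 (E2 ∩ E3) d12 n1 (c1 _) l1
      (Loc.inter l2 l3)
    simp only [mul_one, one] at this
    rw [this, t23]
  have t2 : EZ (Nf y g h (p + 3) J) (E1 ∩ (E2 ∩ E3)) =
      Pr E1 * (EZ (Nf y g h (p + 3) J) E2 * Pr E3) := by
    have h1 := hWI A1 (A2 ∪ A3) (fun _ => 1) (Nf y g h (p + 3) J) E1 (E2 ∩ E3) d12 (c1 _)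
      (VA19_monoLoc n2 Set.subset_union_left) l1 (Loc.inter l2 l3)
    have h2 := hWI A2 A3 (Nf y g h (p + 3) J) (fun _ => 1) E2 E3 d23 n2 (c1 _) l2 l3
    simp only [mul_one, one_mul, one] at h1 h2
    rw [h1, h2]
  have t3 : EZ (Nf x g h (p + m + 3 * s) J) (E1 ∩ (E2 ∩ E3)) =
      Pr E1 * (Pr E2 * EZ (Nf x g h (p + m + 3 * s) J) E3) := by
    have h1 := hWI A1 (A2 ∪ A3) (fun _ => 1) (Nf x g h (p + m + 3 * s) J) E1 (E2 ∩ E3) d12 (c1 _)
      (VA19_monoLoc n3 Set.subset_union_right) l1 (Loc.inter l2 l3)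
    have h2 := hWI A2 A3 (fun _ => 1) (Nf x g h (p + m + 3 * s) J) E2 E3 d23 (c1 _) n3 l2 l3
    simp only [one_mul, one] at h1 h2
    rw [h1, h2]
  refine ⟨?_, ?_⟩
  · -- the bound
    have hQ := h8 x y g h (p + 3) (p + m + 3 * s) J
    have f1 : FinR (Nf x g h (p + 3) J) := VA19_fin n1
    have f2 : FinR (Nf y g h (p + 3) J) := VA19_fin n2
    have f3 : FinR (Nf x g h (p + m + 3 * s) J) := VA19_fin n3
    have o1 : ∀ Z : (V → Bool) → ℝ, FinR Z → FinR fun b => 1 - Z b := by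
      rintro Z ⟨Λ, hΛ⟩
      exact ⟨Λ, fun b b' hb => by show _ - _ = _ - _; rw [hΛ b b' hb]⟩
    have fQ : FinR (Q3 x y g h (p + 3) (p + m + 3 * s) J) :=
      o1 _ (VA19_mulFin (VA19_mulFin (o1 _ f1) (o1 _ f2)) (o1 _ f3))
    have i1 := (hUJ5.1 ∅ _ f1).2.2.1
    have i2 := (hUJ5.1 ∅ _ f2).2.2.1
    have i3 := (hUJ5.1 ∅ _ f3).2.2.1
    have iQ := (hUJ5.1 ∅ _ fQ).2.2.1
    have i12 : Integrable (fun b => Nf x g h (p + 3) J b + Nf y g h (p + 3) J b) P1 := i1.add i2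
    have hle : EZ (Q3 x y g h (p + 3) (p + m + 3 * s) J) (E1 ∩ (E2 ∩ E3)) ≤
        EZ (fun b => Nf x g h (p + 3) J b + Nf y g h (p + 3) J b +
          Nf x g h (p + m + 3 * s) J b) (E1 ∩ (E2 ∩ E3)) := by
      unfold EZ
      refine setIntegral_mono iQ.integrableOn (i12.add i3).integrableOn fun b => ?_
      exact ((hQ b).2.2 fun z P l b => VA14_w z _ h g b).2
    have hsum : EZ (fun b => Nf x g h (p + 3) J b + Nf y g h (p + 3) J b +
          Nf x g h (p + m + 3 * s) J b) (E1 ∩ (E2 ∩ E3)) =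
        EZ (Nf x g h (p + 3) J) (E1 ∩ (E2 ∩ E3)) + EZ (Nf y g h (p + 3) J) (E1 ∩ (E2 ∩ E3)) +
          EZ (Nf x g h (p + m + 3 * s) J) (E1 ∩ (E2 ∩ E3)) := by
      unfold EZ
      rw [integral_add i12.integrableOn i3.integrableOn,
        integral_add i1.integrableOn i2.integrableOn]
    show EZ (Q3 x y g h (p + 3) (p + m + 3 * s) J) (E1 ∩ (E2 ∩ E3)) ≤ _
    refine hle.trans (le_of_eq ?_)
    rw [hsum, t1, t2, t3, p1, p2, p3]
    ring
  · have h1 := hWI (ann x (2 ^ (t + 1)) (2 ^ (p + 1)))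
      (ann x (2 ^ (p + m + 3 * s + m - 1)) (2 ^ N)) (fun _ => 1) (fun _ => 1)
      (F4 x (t + 1) (p + 1)) (F4 x (p + m + 3 * s + m - 1) N) (by
        apply BDis.of_sd
        intro v hv w hw
        have a1 : sd x v ≤ 2 ^ (p + 1) := hv.2
        have a2 : 2 ^ (p + m + 3 * s + m - 1) ≤ sd x w := hw.1
        have a3 : sd x w ≤ sd x v + sd v w := sd_triangle x v w
        have a4 : 2 ^ (p + 1 + 1) ≤ 2 ^ (p + m + 3 * s + m - 1) :=
          Nat.pow_le_pow_right (by norm_num) (by omega)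
        have a5 : 2 ^ (p + 1 + 1) = 2 * 2 ^ (p + 1) := by rw [pow_succ]; ring
        have a6 : 2 ≤ 2 ^ (p + 1) := by
          calc 2 = 2 ^ 1 := by norm_num
            _ ≤ 2 ^ (p + 1) := Nat.pow_le_pow_right (by norm_num) (by omega)
        omega) (c1 _) (c1 _) (hLQ.1 _ _ _) (hLQ.1 _ _ _)
    simp only [mul_one, one] at h1
    have e1 : Pr (F4 x (t + 1) (p + 1)) = a4 (t + 1) (p + 1) := (hUI7.2 x _ _ hx).1
    have e3 : Pr (F4 x (p + m + 3 * s + m - 1) N) = a4 (p + m + 3 * s + m - 1) N :=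
      (hUI7.2 x _ _ hx).1
    show Pr (F4 x (t + 1) (p + 1) ∩ F4 x (p + m + 3 * s + m - 1) N) ≤ _
    rw [h1, e1, e3]

end TP
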