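import Pool.Agent.helper33.SP.SpecC2S
import Pool.Agent.helper32.SP.UJ17

/-!
# SP, C2S, VA19: lower bound of the weight of a block
-/

namespace TP

open DP MeasureTheory

theorem VA19_cprLoc {A E S} (h : Loc E S) : LocF (cpr A E) {v | v ∈ S ∧ br v ∉ A} := by
  classical
  obtain ⟨Λ, h1, h2⟩ := h
  refine ⟨Λ.filter fun v => br v ∉ A, ?_, ?_⟩
  · intro v hv
    rw [Finset.mem_coe, Finset.mem_filter] at hv
    exact ⟨h1 hv.1, hv.2⟩
  · intro b b' hb
    have h3 : {b'' | mx A b b'' ∈ E} = {b'' | mx A b' b'' ∈ E} := by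
      ext b''
      refine h2 _ _ fun v hv => ?_
      unfold mx
      by_cases hA : br v ∈ A
      · rw [if_pos hA, if_pos hA]
      · rw [if_neg hA, if_neg hA]
        exact hb v (Finset.mem_filter.2 ⟨hv, hA⟩)
    unfold cpr
    rw [h3]

theorem VA19_indLoc {E S} (h : Loc E S) : LocF (E.indicator (1 : (V → Bool) → ℝ)) S := by
  obtain ⟨Λ, h1, h2⟩ := h
  refine ⟨Λ, h1, fun b b' hb => ?_⟩
  have h3 : b ∈ E ↔ b' ∈ E := h2 b b' hb
  by_cases h4 : b ∈ E
  · rw [Set.indicator_of_mem h4, Set.indicator_of_mem (h3.1 h4)]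
    rfl
  · rw [Set.indicator_of_notMem h4, Set.indicator_of_notMem fun h5 => h4 (h3.2 h5)]

theorem VA19_mulLoc {Z W : (V → Bool) → ℝ} {A B} (h : LocF Z A) (h' : LocF W B) :
    LocF (fun b => Z b * W b) (A ∪ B) := by
  classical
  obtain ⟨Λ, h1, h2⟩ := h
  obtain ⟨M, h3, h4⟩ := h'
  refine ⟨Λ ∪ M, by push_cast; exact Set.union_subset_union h1 h3, fun b b' hb => ?_⟩
  show _ * _ = _ * _
  rw [h2 b b' fun v hv => hb v (Finset.mem_union_left _ hv),
    h4 b b' fun v hv => hb v (Finset.mem_union_right _ hv)]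

theorem VA19_monoLoc {Z : (V → Bool) → ℝ} {A B} (h : LocF Z A) (hAB : A ⊆ B) : LocF Z B := by
  obtain ⟨Λ, h1, h2⟩ := h
  exact ⟨Λ, h1.trans hAB, h2⟩

theorem VA19_fin {Z : (V → Bool) → ℝ} {A} (h : LocF Z A) : FinR Z := by
  classical
  obtain ⟨Λ, h1, h2⟩ := h
  exact ⟨Λ.image br, fun b b' hb => h2 b b' fun v hv =>
    hb (br v) (by rw [Finset.mem_coe]; exact Finset.mem_image_of_mem _ hv)⟩

theorem VA19_mulFin {Z W : (V → Bool) → ℝ} (h : FinR Z) (h' : FinR W) :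
    FinR (fun b => Z b * W b) := by
  classical
  obtain ⟨Λ, h1⟩ := h
  obtain ⟨M, h2⟩ := h'
  refine ⟨Λ ∪ M, fun b b' hb => ?_⟩
  show _ * _ = _ * _
  rw [h1 b b' fun v hv => hb v (by push_cast; exact Or.inl hv),
    h2 b b' fun v hv => hb v (by push_cast; exact Or.inr hv)]

theorem VA19_cpr {A E S} (h : Loc E S) (b : V → Bool) :
    av A (E.indicator 1) b = cpr A E b := by
  have hm : MeasurableSet {b' | mx A b b' ∈ E} := by
    obtain ⟨Λ, -, h2⟩ := h
    refine DP.Dep.measurableSet (Λ := brs Λ) fun b₁ b₂ hb => ?_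
    refine h2.coin' _ _ fun v hv => ?_
    unfold mx
    by_cases hvA : v ∈ A
    · rw [if_pos hvA, if_pos hvA]; exact hb v hv
    · rw [if_neg hvA, if_neg hvA]
  have h1 : ∀ b', E.indicator (1 : (V → Bool) → ℝ) (mx A b b') =
      {b' | mx A b b' ∈ E}.indicator 1 b' := by
    intro b'
    by_cases h : mx A b b' ∈ E
    · rw [Set.indicator_of_mem h, Set.indicator_of_mem (show b' ∈ {b' | mx A b b' ∈ E} from h)]
      rfl
    · rw [Set.indicator_of_notMem h,
        Set.indicator_of_notMem (show b' ∉ {b' | mx A b b' ∈ E} from h)]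
  unfold av
  simp only [h1]
  exact integral_indicator_one hm

theorem VA19_EZ {H : (V → Bool) → ℝ} {E S} (h : Loc E S) :
    EZ H E = ∫ b, H b * E.indicator (1 : (V → Bool) → ℝ) b ∂P1 := by
  unfold EZ
  rw [← integral_indicator h.measurableSet]
  congr 1
  funext b
  by_cases hb : b ∈ E
  · rw [Set.indicator_of_mem hb, Set.indicator_of_mem hb]; simp
  · rw [Set.indicator_of_notMem hb, Set.indicator_of_notMem hb, mul_zero]

/-- Fubini. -/
theorem VA19_fub (hUJ5 : UJ5_stmt) {H : (V → Bool) → ℝ} {A : Set V} {E S} (hE : Loc E S)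
    (hH : FinR H) (hA : ∀ b b' : V → Bool, (∀ v, v ∉ A → b v = b' v) → H b = H b') :
    EZ H E = ∫ b, H b * cpr A E b ∂P1 := by
  have hf : FinR (E.indicator (1 : (V → Bool) → ℝ)) := UJ17_fin hE
  rw [VA19_EZ hE, ← (hUJ5.1 A _ (VA19_mulFin hH hf)).2.2.2]
  congr 1
  funext b
  rw [hUJ5.2.2.2.1 A _ _ hf hH hA b, VA19_cpr hE b]

/-- Cauchy-Schwarz. -/
theorem VA19_cs (hUJ5 : UJ5_stmt) {f : (V → Bool) → ℝ} (hf : FinR f) :
    (∫ b, f b ∂P1) ^ 2 ≤ ∫ b, f b ^ 2 ∂P1 := by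
  have hP : IsProbabilityMeasure P1 := by unfold P1; infer_instance
  have hi : Integrable f P1 := (hUJ5.1 ∅ f hf).2.2.1
  have hf2 : FinR fun b => f b ^ 2 := by
    have := VA19_mulFin hf hf
    simpa only [pow_two] using this
  have hi2 : Integrable (fun b => f b ^ 2) P1 := (hUJ5.1 ∅ _ hf2).2.2.1
  set m := ∫ b, f b ∂P1 with hm
  have h0 : 0 ≤ ∫ b, (f b - m) ^ 2 ∂P1 := integral_nonneg fun b => sq_nonneg _
  have h1 : ∫ b, (f b - m) ^ 2 ∂P1 = ∫ b, f b ^ 2 ∂P1 - m ^ 2 := by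
    have e : (fun b => (f b - m) ^ 2) = fun b => (f b ^ 2 - 2 * m * f b) + m ^ 2 := by
      funext b; ring
    have hs : Integrable (fun b => f b ^ 2 - 2 * m * f b) P1 := hi2.sub (hi.const_mul (2 * m))
    rw [e, integral_add hs (integrable_const _),
      integral_sub hi2 (hi.const_mul (2 * m)), integral_const_mul, ← hm, integral_const]
    simp
    ring
  linarith

theorem VA19_cprInv {A : Set V} {E : Set (V → Bool)} (b b' : V → Bool)
    (h : ∀ v, v ∉ A → b v = b' v) : cpr A E b = cpr A E b' := by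
  have hmx : ∀ b'', mx A b b'' = mx A b' b'' := by
    intro b''
    funext v
    unfold mx
    by_cases hv : v ∈ A
    · rw [if_pos hv, if_pos hv]
    · rw [if_neg hv, if_neg hv]; exact h v hv
  unfold cpr
  simp only [hmx]

theorem VA19_cprNonneg (A : Set V) (E : Set (V → Bool)) (b : V → Bool) : 0 ≤ cpr A E b :=
  measureReal_nonneg

/-- `∫ 1_G cpr E ^ 2 ≥ Pr (G ∩ E) ^ 2`. -/
theorem VA19_sq (hUJ5 : UJ5_stmt) {A : Set V} {G E : Set (V → Bool)} {S T : Set V}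
    (hG : Loc G S) (hE : Loc E T)
    (hGA : ∀ b b' : V → Bool, (∀ v, v ∉ A → b v = b' v) →
      G.indicator (1 : (V → Bool) → ℝ) b = G.indicator 1 b') :
    Pr (G ∩ E) ^ 2 ≤ ∫ b, G.indicator (1 : (V → Bool) → ℝ) b * (cpr A E b) ^ 2 ∂P1 := by
  have hfG : FinR (G.indicator (1 : (V → Bool) → ℝ)) := UJ17_fin hG
  have hfc : FinR (cpr A E) := VA19_fin (VA19_cprLoc (A := A) hE)
  have h1 : EZ (G.indicator (1 : (V → Bool) → ℝ)) E = Pr (G ∩ E) := by
    rw [VA19_EZ hE]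
    have e : (fun b => G.indicator (1 : (V → Bool) → ℝ) b * E.indicator (1 : (V → Bool) → ℝ) b) =
        (G ∩ E).indicator 1 := by
      funext b
      rw [Set.inter_indicator_one]
      rfl
    rw [e]
    exact integral_indicator_one (hG.measurableSet.inter hE.measurableSet)
  rw [← h1, VA19_fub hUJ5 hE hfG hGA]
  refine (VA19_cs hUJ5 (VA19_mulFin hfG hfc)).trans (le_of_eq ?_)
  congr 1
  funext b
  by_cases hb : b ∈ G
  · rw [Set.indicator_of_mem hb]; simp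
  · rw [Set.indicator_of_notMem hb]; simp

theorem VA19_indInv {A S : Set V} {G : Set (V → Bool)} (hG : Loc G S)
    (hS : ∀ v ∈ S, br v ∉ A) (b b' : V → Bool) (h : ∀ v, v ∉ A → b v = b' v) :
    G.indicator (1 : (V → Bool) → ℝ) b = G.indicator 1 b' := by
  obtain ⟨Λ, h1, h2⟩ := hG
  have h3 : b ∈ G ↔ b' ∈ G := h2 b b' fun v hv => h _ (hS v (h1 hv))
  by_cases h4 : b ∈ G
  · rw [Set.indicator_of_mem h4, Set.indicator_of_mem (h3.1 h4)]
    rfl
  · rw [Set.indicator_of_notMem h4, Set.indicator_of_notMem fun h5 => h4 (h3.2 h5)]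

theorem VA19 (hUJ5 : UJ5_stmt) (hLQ : K.LQ_stmt) (hGB : K.GB_stmt) (h16 : VA16_stmt)
    (h17 : VA17_stmt) (h18 : VA18_stmt) : VA19_stmt := by
  classical
  have hP : IsProbabilityMeasure P1 := by unfold P1; infer_instance
  obtain ⟨c₄, hc₄, i₁, hGB⟩ := hGB
  obtain ⟨c₁, hc₁, k₁, h16⟩ := h16
  obtain ⟨⟨c₂, hc₂, k₂, h17⟩, k₃, h17'⟩ := h17
  obtain ⟨c₃, g, k₄, hc₃, hg, h18⟩ := h18
  refine ⟨1 / 2 * c₁ * (c₄ * (c₂ * c₃ ^ 2 * c₃ ^ 2)), g, i₁ + k₁ + k₂ + k₃ + k₄ + 16, by positivity,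
    hg, ?_⟩
  intro z p hz hp
  have hze : Even (z.1 + z.2) := Int.even_iff.mpr hz
  set A := Ag z p 14 with hA
  set a := p - g - 2 with ha
  set n := p + 14 + g + 2 with hn
  have e1 : p - g - 1 - 1 = a := by omega
  have e2 : a + 1 = p - g - 1 := by omega
  -- the events
  have lB : Loc (B4 z a n) (ann z (2 ^ a) (2 ^ n)) := hLQ.2.2.1 z a n (by omega)
  have lB1 : Loc (B4 z a (p + 4)) (ann z (2 ^ a) (2 ^ (p + 4))) := hLQ.2.2.1 z _ _ (by omega)
  have lB2 : Loc (B4 z a (p + 5)) (ann z (2 ^ a) (2 ^ (p + 5))) := hLQ.2.2.1 z _ _ (by omega)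
  have lB3 : Loc (B4 z (p + 6) n) (ann z (2 ^ (p + 6)) (2 ^ n)) := hLQ.2.2.1 z _ _ (by omega)
  have lS : Loc (S4 z (p - g - 1) (p + 4)) (ann z (2 ^ (p - g - 1)) (2 ^ (p + 4))) :=
    hLQ.2.1 z _ _ (by omega)
  have lI : Loc (gIn z p g) (ann z (2 ^ (p - g - 1)) (2 ^ (p - 1))) := UJ17_loc z _ _
  have lO : Loc (gOut z p 14 g) (ann z (2 ^ (p + 14 + 1)) (2 ^ (p + 14 + g + 1))) := UJ17_loc z _ _
  -- powers
  have q0 : 1 ≤ 2 ^ (p - 1) := Nat.one_le_two_pow
  have q1 : 2 ^ p = 2 * 2 ^ (p - 1) := by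
    conv_lhs => rw [show p = (p - 1) + 1 by omega, pow_succ]
    ring
  have q4 : 2 ^ (p + 4) = 16 * 2 ^ p := by rw [pow_add]; ring
  have q5 : 2 ^ (p + 5) = 32 * 2 ^ p := by rw [pow_add]; ring
  have q7 : 2 ^ (p + 4 + 3) = 128 * 2 ^ p := by
    rw [show p + 4 + 3 = p + 7 by omega, pow_add]; ring
  have q14 : 2 ^ (p + 14) = 16384 * 2 ^ p := by rw [pow_add]; ring
  have q15 : 2 ^ (p + 14 + 1) = 2 * 2 ^ (p + 14) := by rw [pow_succ]; ring
  -- bricks
  have hbr : ∀ v, sd z (br v) ≤ sd z v + 1 ∧ sd z v ≤ sd z (br v) + 1 := by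
    intro v
    have h5 : sd z (br v) ≤ sd z v + sd v (br v) := sd_triangle z v (br v)
    have h5' : sd z v ≤ sd z (br v) + sd (br v) v := sd_triangle z (br v) v
    have h6 := sd_br_le v
    rw [sd_comm] at h6
    constructor
    · rw [sd_comm] at h6
      omega
    · omega
  have hAm : ∀ v, v ∈ A ↔ 2 ^ p < sd z v ∧ sd z v < 2 ^ (p + 14) := fun v => Iff.rfl
  -- invariance of the gates
  have iI : ∀ b b' : V → Bool, (∀ v, v ∉ A → b v = b' v) →
      (gIn z p g).indicator (1 : (V → Bool) → ℝ) b = (gIn z p g).indicator 1 b' := by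
    refine VA19_indInv lI ?_
    intro v hv hvA
    have h1 : sd z v ≤ 2 ^ (p - 1) := hv.2
    have h2 := ((hAm _).1 hvA).1
    have h3 := (hbr v).1
    omega
  have iO : ∀ b b' : V → Bool, (∀ v, v ∉ A → b v = b' v) →
      (gOut z p 14 g).indicator (1 : (V → Bool) → ℝ) b = (gOut z p 14 g).indicator 1 b' := by
    refine VA19_indInv lO ?_
    intro v hv hvA
    have h1 : 2 ^ (p + 14 + 1) ≤ sd z v := hv.1
    have h2 := ((hAm _).1 hvA).2
    have h3 := (hbr v).2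
    omega
  -- the two weights
  set Z : (V → Bool) → ℝ := fun b => (gIn z p g).indicator (1 : (V → Bool) → ℝ) b *
    cpr A (S4 z (p - g - 1) (p + 4)) b with hZ
  set W : (V → Bool) → ℝ := fun b => (gOut z p 14 g).indicator (1 : (V → Bool) → ℝ) b *
    cpr A (B4 z (p + 6) n) b with hW
  have ind0 : ∀ (G : Set (V → Bool)) b, 0 ≤ G.indicator (1 : (V → Bool) → ℝ) b := by
    intro G b
    exact Set.indicator_nonneg (fun _ _ => zero_le_one) b
  have hZ0 : ∀ b, 0 ≤ Z b := fun b => mul_nonneg (ind0 _ _) (VA19_cprNonneg _ _ _)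
  have hW0 : ∀ b, 0 ≤ W b := fun b => mul_nonneg (ind0 _ _) (VA19_cprNonneg _ _ _)
  have hZl : LocF Z (box z (2 ^ (p + 4))) := by
    refine VA19_monoLoc (VA19_mulLoc (VA19_indLoc lI) (VA19_cprLoc lS)) ?_
    rintro v (hv | ⟨hv, -⟩)
    · have h1 : sd z v ≤ 2 ^ (p - 1) := hv.2
      show sd z v ≤ 2 ^ (p + 4)
      omega
    · exact hv.2
  have hWl : LocF W (ann z (2 ^ (p + 4 + 3)) (2 ^ n)) := by
    refine VA19_monoLoc (VA19_mulLoc (VA19_indLoc lO) (VA19_cprLoc lB3)) ?_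
    rintro v (hv | ⟨hv, hvA⟩)
    · have h1 : 2 ^ (p + 14 + 1) ≤ sd z v := hv.1
      have h2 : sd z v ≤ 2 ^ (p + 14 + g + 1) := hv.2
      have h3 : 2 ^ (p + 14 + g + 1) ≤ 2 ^ n := Nat.pow_le_pow_right (by norm_num) (by omega)
      exact ⟨by omega, by omega⟩
    · have h1 : 2 ^ (p + 6) ≤ sd z v := hv.1
      have h2 : sd z v ≤ 2 ^ n := hv.2
      have h3 := hbr v
      have h6 : 2 ^ (p + 6) = 64 * 2 ^ p := by rw [pow_add]; ring
      have h5 : ¬ (2 ^ p < sd z (br v) ∧ sd z (br v) < 2 ^ (p + 14)) := hvA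
      refine ⟨?_, h2⟩
      by_contra hlt
      push Not at hlt
      apply h5
      constructor
      · omega
      · omega
  have hZi : ∀ b b' : V → Bool, (∀ v, v ∉ A → b v = b' v) → Z b = Z b' := by
    intro b b' h
    show _ * _ = _ * _
    rw [iI b b' h, VA19_cprInv b b' h]
  have hWi : ∀ b b' : V → Bool, (∀ v, v ∉ A → b v = b' v) → W b = W b' := by
    intro b b' h
    show _ * _ = _ * _
    rw [iO b b' h, VA19_cprInv b b' h]
  have hZf : FinR Z := VA19_fin hZl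
  have hWf : FinR W := VA19_fin hWl
  -- the outer factor
  have b1 : c₃ ^ 2 ≤ EZ W (B4 z (p + 6) n) := by
    rw [VA19_fub hUJ5 lB3 hWf hWi]
    have h1 := VA19_sq hUJ5 (A := A) lO lB3 iO
    have h2 : c₃ ≤ Pr (gOut z p 14 g ∩ B4 z (p + 6) n) := (h18 z p hz (by omega)).2
    have h3 : c₃ ^ 2 ≤ Pr (gOut z p 14 g ∩ B4 z (p + 6) n) ^ 2 := by gcongr
    refine (h3.trans h1).trans (le_of_eq ?_)
    congr 1
    funext b
    show _ = _ * _ * _
    ring
  -- the inner factor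
  have b2 : c₂ * c₃ ^ 2 ≤ EZ Z (B4 z a (p + 5)) := by
    rw [VA19_fub hUJ5 lB2 hZf hZi]
    have h1 := VA19_sq hUJ5 (A := A) lI lB1 iI
    have h2 : c₃ ≤ Pr (gIn z p g ∩ B4 z a (p + 4)) := (h18 z p hz (by omega)).1
    have h3 : c₃ ^ 2 ≤ Pr (gIn z p g ∩ B4 z a (p + 4)) ^ 2 := by gcongr
    have h4 : c₂ * c₃ ^ 2 ≤ c₂ * ∫ b, (gIn z p g).indicator (1 : (V → Bool) → ℝ) b *
        (cpr A (B4 z a (p + 4)) b) ^ 2 ∂P1 := mul_le_mul_of_nonneg_left (h3.trans h1) hc₂.le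
    refine h4.trans ?_
    rw [← integral_const_mul]
    have hfi : FinR ((gIn z p g).indicator (1 : (V → Bool) → ℝ)) := UJ17_fin lI
    have hf1 : FinR (cpr A (B4 z a (p + 4))) := VA19_fin (VA19_cprLoc (A := A) lB1)
    have hf2 : FinR (cpr A (B4 z a (p + 5))) := VA19_fin (VA19_cprLoc (A := A) lB2)
    have g1 : Integrable (fun b => c₂ * ((gIn z p g).indicator (1 : (V → Bool) → ℝ) b *
        (cpr A (B4 z a (p + 4)) b) ^ 2)) P1 := by
      have := (hUJ5.1 ∅ _ (VA19_mulFin hfi (VA19_mulFin hf1 hf1))).2.2.1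
      simp only [← pow_two] at this
      exact this.const_mul c₂
    have g2 : Integrable (fun b => Z b * cpr A (B4 z a (p + 5)) b) P1 :=
      (hUJ5.1 ∅ _ (VA19_mulFin hZf hf2)).2.2.1
    refine integral_mono g1 g2 fun b => ?_
    show c₂ * ((gIn z p g).indicator (1 : (V → Bool) → ℝ) b * (cpr A (B4 z a (p + 4)) b) ^ 2) ≤
      (gIn z p g).indicator (1 : (V → Bool) → ℝ) b * cpr A (S4 z (p - g - 1) (p + 4)) b *
        cpr A (B4 z a (p + 5)) b
    have k1 : c₂ * cpr A (B4 z a (p + 4)) b ≤ cpr A (B4 z a (p + 5)) b :=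
      h17 z p 14 a b hz (by omega) (by norm_num) (by omega)
    have k2 : cpr A (B4 z a (p + 4)) b ≤ cpr A (S4 z (p - g - 1) (p + 4)) b := by
      refine measureReal_mono ?_ (measure_ne_top _ _)
      intro b' hb'
      have := h17' z (p - g - 1) (p + 4) hz (by omega) (by omega)
      rw [e1] at this
      exact this hb'
    have k3 := VA19_cprNonneg A (B4 z a (p + 4)) b
    have k4 := VA19_cprNonneg A (S4 z (p - g - 1) (p + 4)) b
    have k5 : (cpr A (B4 z a (p + 4)) b) * (c₂ * cpr A (B4 z a (p + 4)) b) ≤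
        cpr A (S4 z (p - g - 1) (p + 4)) b * cpr A (B4 z a (p + 5)) b :=
      mul_le_mul k2 k1 (mul_nonneg hc₂.le k3) k4
    calc c₂ * ((gIn z p g).indicator (1 : (V → Bool) → ℝ) b * (cpr A (B4 z a (p + 4)) b) ^ 2)
        = (gIn z p g).indicator (1 : (V → Bool) → ℝ) b *
          ((cpr A (B4 z a (p + 4)) b) * (c₂ * cpr A (B4 z a (p + 4)) b)) := by ring
      _ ≤ (gIn z p g).indicator (1 : (V → Bool) → ℝ) b *
          (cpr A (S4 z (p - g - 1) (p + 4)) b * cpr A (B4 z a (p + 5)) b) :=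
          mul_le_mul_of_nonneg_left k5 (ind0 _ _)
      _ = _ := by ring
  -- gluing
  have b3 : c₄ * (EZ Z (B4 z a (p + 5)) * EZ W (B4 z (p + 6) n)) ≤
      EZ (fun b => Z b * W b) (B4 z a n) :=
    hGB z Z W a (p + 4) n hze (by omega) (by omega) (by omega) hZl hWl hZ0 hW0
  -- the pointwise bound
  have hBF : B4 z a n ⊆ thr z p 14 g := by
    intro b hb
    have h1 : b ∈ F4 z a n := hLQ.2.2.2.2.2 z a n hze (by omega) (by omega) hb
    exact hLQ.2.2.2.1 z a (p - g - 1) (p + 14 + g + 1) n (by omega) (by omega) (by omega) h1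
  have b4 : 1 / 2 * c₁ * EZ (fun b => Z b * W b) (B4 z a n) ≤ EZ (wpar z p 14 g) (B4 z a n) := by
    unfold EZ
    rw [← integral_const_mul]
    have hfw : FinR (wpar z p 14 g) := by
      have f1 : FinR ((gts z p 14 g ∩ thr z p 14 g).indicator (1 : (V → Bool) → ℝ)) :=
        UJ17_fin (Loc.inter (UJ17_locG z p 14 g) (UJ17_locT z p 14 g))
      have f2 : FinR (cpr A (thr z p 14 g)) :=
        VA19_fin (VA19_cprLoc (A := A) (UJ17_locT z p 14 g))
      have f3 : FinR (fun b => cpr A (thr z p 14 g) (flp (fI z p) b)) := by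
        obtain ⟨Λ, h⟩ := f2
        refine ⟨Λ, fun b b' hb => h _ _ fun v hv => ?_⟩
        unfold flp
        split_ifs
        · rw [hb v hv]
        · exact hb v hv
      have f4 : FinR (fun b => 1 / 2 * (gts z p 14 g ∩ thr z p 14 g).indicator
          (1 : (V → Bool) → ℝ) b) := by
        obtain ⟨Λ, h⟩ := f1
        exact ⟨Λ, fun b b' hb => by show _ * _ = _ * _; rw [h b b' hb]⟩
      exact VA19_mulFin f4 f3
    have g1 : Integrable (fun b => 1 / 2 * c₁ * (Z b * W b)) P1 :=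
      ((hUJ5.1 ∅ _ (VA19_mulFin hZf hWf)).2.2.1).const_mul _
    have g2 : Integrable (wpar z p 14 g) P1 := (hUJ5.1 ∅ _ hfw).2.2.1
    refine setIntegral_mono_on g1.integrableOn g2.integrableOn lB.measurableSet fun b hb => ?_
    have hbt := hBF hb
    have k1 := h16 z p 14 g b hz (by omega) (by norm_num) hg
    by_cases hI : b ∈ gIn z p g
    · by_cases hO : b ∈ gOut z p 14 g
      · have hgt : b ∈ gts z p 14 g ∩ thr z p 14 g := ⟨⟨hI, hO⟩, hbt⟩
        show 1 / 2 * c₁ * ((gIn z p g).indicator (1 : (V → Bool) → ℝ) b *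
          cpr A (S4 z (p - g - 1) (p + 4)) b * ((gOut z p 14 g).indicator (1 : (V → Bool) → ℝ) b *
          cpr A (B4 z (p + 6) n) b)) ≤
          1 / 2 * (gts z p 14 g ∩ thr z p 14 g).indicator 1 b * cpr A (thr z p 14 g)
            (flp (fI z p) b)
        rw [Set.indicator_of_mem hI, Set.indicator_of_mem hO, Set.indicator_of_mem hgt]
        simp only [Pi.one_apply, one_mul, mul_one]
        calc 1 / 2 * c₁ * (cpr A (S4 z (p - g - 1) (p + 4)) b * cpr A (B4 z (p + 6) n) b)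
            = 1 / 2 * (c₁ * (cpr A (S4 z (p - g - 1) (p + 4)) b * cpr A (B4 z (p + 6) n) b)) := by
              ring
          _ ≤ 1 / 2 * cpr A (thr z p 14 g) (flp (fI z p) b) :=
              mul_le_mul_of_nonneg_left k1 (by norm_num)
      · have : W b = 0 := by
          show _ * _ = _
          rw [Set.indicator_of_notMem hO, zero_mul]
        rw [this, mul_zero, mul_zero]
        exact mul_nonneg (mul_nonneg (by norm_num) (ind0 _ _)) (VA19_cprNonneg _ _ _)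
    · have : Z b = 0 := by
        show _ * _ = _
        rw [Set.indicator_of_notMem hI, zero_mul]
      rw [this, zero_mul, mul_zero]
      exact mul_nonneg (mul_nonneg (by norm_num) (ind0 _ _)) (VA19_cprNonneg _ _ _)
  have b5 : c₂ * c₃ ^ 2 * c₃ ^ 2 ≤ EZ Z (B4 z a (p + 5)) * EZ W (B4 z (p + 6) n) :=
    mul_le_mul b2 b1 (by positivity) ((by positivity : (0:ℝ) ≤ c₂ * c₃ ^ 2).trans b2)
  calc 1 / 2 * c₁ * (c₄ * (c₂ * c₃ ^ 2 * c₃ ^ 2))
      ≤ 1 / 2 * c₁ * (c₄ * (EZ Z (B4 z a (p + 5)) * EZ W (B4 z (p + 6) n))) := by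
        gcongr
    _ ≤ 1 / 2 * c₁ * EZ (fun b => Z b * W b) (B4 z a n) := by gcongr
    _ ≤ _ := b4

end TP
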