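import Pool.Agent.helper33.SP.SpecC2S

/-!
# SP, C2S, VA20: no block is exponentially unlikely
-/

namespace TP

open DP MeasureTheory

theorem VA20 (hCHE : K.CHE_stmt) (h7 : VA7_stmt) (h19 : VA19_stmt) (hUI7 : UI7_stmt) :
    VA20_stmt := by
  obtain ⟨c₀, hc₀, i₁, hC⟩ := hCHE
  obtain ⟨c₁, g, k₁, hc₁, hg, h19⟩ := h19
  have hP : IsProbabilityMeasure P1 := by unfold P1; infer_instance
  refine ⟨c₀ * c₁, g, max i₁ k₁, mul_pos hc₀ hc₁, hg, ?_⟩
  intro z P I J hz hP' hI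
  have hPi : i₁ ≤ P := (le_max_left _ _).trans hP'
  have hPk : k₁ ≤ P := (le_max_right _ _).trans hP'
  have hze : Even (z.1 + z.2) := Int.even_iff.mpr hz
  have hzx : ∀ j, zx g 14 P j = P + g + 8 + j * (2 * g + 24) := by
    intro j
    unfold zx
    ring
  have hw : ∀ j, (∀ b, 0 ≤ wf z g 14 P j b ∧ wf z g 14 P j b ≤ 1 / 2) ∧
      LocF (wf z g 14 P j) (ann z (2 ^ (zx g 14 P j - g - 1)) (2 ^ (zx g 14 P j + 14 + g + 1))) := by
    intro j
    have h := h7 z (zx g 14 P j) 14 g hz (by rw [hzx]; omega) hg (by norm_num)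
    exact ⟨h.1, h.2.1⟩
  have hWts : Wts z P J (fun j => zx g 14 P j - g - 1) (fun j => zx g 14 P j + 14 + g + 1)
      (wf z g 14 P) := by
    refine ⟨fun j _ b => ((hw j).1 b).1, fun j _ b => ((hw j).1 b).2, fun j _ => (hw j).2, ?_, ?_,
      ?_⟩
    · intro j _
      show P + 6 ≤ zx g 14 P j - g - 1
      rw [hzx]; omega
    · intro j _
      show zx g 14 P j - g - 1 ≤ zx g 14 P j + 14 + g + 1
      omega
    · intro j j' hj _
      show zx g 14 P j + 14 + g + 1 + 6 ≤ zx g 14 P j' - g - 1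
      have h1 : (j + 1) * (2 * g + 24) ≤ j' * (2 * g + 24) := Nat.mul_le_mul_right _ hj
      have h2 : (j + 1) * (2 * g + 24) = j * (2 * g + 24) + (2 * g + 24) := by ring
      rw [hzx, hzx]
      omega
  have hle : ∀ j < J, zx g 14 P j + 14 + g + 1 + 7 ≤ I := by
    intro j hj
    have h1 : (j + 1) * (2 * g + 24) ≤ J * (2 * g + 24) := Nat.mul_le_mul_right _ hj
    have h2 : (j + 1) * (2 * g + 24) = j * (2 * g + 24) + (2 * g + 24) := by ring
    have h3 : J * (2 * g + 14 + 10) = J * (2 * g + 24) := by ring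
    rw [h3] at hI
    rw [hzx]
    omega
  have hmain := hC z P I J (fun j => zx g 14 P j - g - 1) (fun j => zx g 14 P j + 14 + g + 1)
    (wf z g 14 P) (fun _ => c₁) hze hPi hWts hle (fun _ _ => hc₁.le) (by
      intro j _
      have h1 := h19 z (zx g 14 P j) hz (by rw [hzx]; omega)
      have h2 : Pr (F4 z (zx g 14 P j - g - 1) (zx g 14 P j + 14 + g + 1)) ≤ 1 :=
        measureReal_le_one
      have h3 : zx g 14 P j - g - 1 - 1 = zx g 14 P j - g - 2 := by omega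
      have h4 : zx g 14 P j + 14 + g + 1 + 1 = zx g 14 P j + 14 + g + 2 := by omega
      show c₁ * Pr (F4 z (zx g 14 P j - g - 1) (zx g 14 P j + 14 + g + 1)) ≤
        EZ (wf z g 14 P j) (B4 z (zx g 14 P j - g - 1 - 1) (zx g 14 P j + 14 + g + 1 + 1))
      rw [h3, h4]
      calc c₁ * Pr (F4 z (zx g 14 P j - g - 1) (zx g 14 P j + 14 + g + 1)) ≤ c₁ * 1 :=
            mul_le_mul_of_nonneg_left h2 hc₁.le
        _ = c₁ := mul_one _
        _ ≤ _ := h1)
  have h5 : Pr (F4 z P I) = a4 P I := (hUI7.2 z (2 ^ P) (2 ^ I) hz).1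
  have h6 : c₀ * ∑ _j ∈ Finset.range J, c₁ = c₀ * c₁ * (J : ℝ) := by
    rw [Finset.sum_const, Finset.card_range, nsmul_eq_mul]
    ring
  rw [h5, h6] at hmain
  exact hmain

end TP
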