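import Pool.Agent.helper61.SP.SpecDX

/-! # sp, DX6: the two laws -/

namespace TP

open DP MeasureTheory

theorem DX6_reach (c : V → Bool) (x : V) (m n : ℕ)
    (h : reach (fun v => c (RSX_sw v)) true x m n) : reach c true (RSX_sw x) m n := by
  obtain ⟨u, v, hu, hv, h⟩ := h
  refine ⟨RSX_sw u, RSX_sw v, ?_, ?_, ?_⟩
  · unfold sd at hu ⊢
    simp only [RSX_sw, Equiv.coe_fn_mk]
    omega
  · unfold sd at hv ⊢
    simp only [RSX_sw, Equiv.coe_fn_mk]
    omega
  · refine RSX_con (W := {w | w ∈ Set.univ ∧ c w = true}) _ RSX_adj_sw (DP.Con.mono ?_ h)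
    intro z hz
    exact ⟨Set.mem_univ _, hz.2⟩

theorem DX6 : DX6_stmt := by
  have hP : IsProbabilityMeasure P1 := by unfold P1; infer_instance
  obtain ⟨c, hc, L, hL, hR⟩ := RSW
  obtain ⟨C, hC, a, ha, h2⟩ := C2
  refine ⟨⟨fun v w h hne => br_adj h hne, ⟨c, hc, L, hL, ?_⟩, ⟨C, hC, a, ha, ?_⟩⟩,
    ⟨?_, ⟨c, hc, L, hL, ?_⟩, ⟨C, hC, a, ha, ?_⟩⟩⟩
  · intro a b d e hab hde
    exact hR true a b d e hab hde
  · intro x m n hm hmn
    exact h2 true x m n hm hmn
  · intro v w h hne
    have h1 : Adj (RSX_sw v) (RSX_sw w) := br_adj h fun h3 => hne (RSX_sw.injective h3)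
    exact RSX_adj_sw' _ _ h1
  · intro a b d e hab hde
    have e1 : {ω | hcross (kap (fun v => br (v.2, v.1)) ω) true a b d e} =
        Ev fun c => vcross c true d e a b := by
      ext ω
      exact RSX_h_sw (col ω) true d e a b
    have e2 : {ω | vcross (kap (fun v => br (v.2, v.1)) ω) true a b d e} =
        Ev fun c => hcross c true d e a b := by
      ext ω
      exact (RSX_h_sw (fun v => col ω (RSX_sw v)) true a b d e).symm
    rw [e1, e2]
    exact ⟨(hR true d e a b hde hab).2, (hR true d e a b hde hab).1⟩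
  · intro x m n hm hmn
    refine le_trans ?_ (h2 true (RSX_sw x) m n hm hmn)
    refine measureReal_mono ?_ (measure_ne_top _ _)
    intro ω hω
    exact DX6_reach (col ω) x m n hω

end TP
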