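import Pool.Agent.helper49.SP.SpecAS

/-!
# Project sp, part AS, module S4: pigeonhole of types
-/

namespace TP

theorem AS_S4 : S4_stmt := by
  classical
  intro ty M
  set A : Finset ℕ := (Finset.range (2 * M)).filter (fun j => ty (3 * j) ∨ ty (3 * j + 1)) with hA
  set B : Finset ℕ := (Finset.range (2 * M)).filter
    (fun j => ¬ (ty (3 * j) ∨ ty (3 * j + 1))) with hB
  have hAB : A.card + B.card = 2 * M := by
    have := Finset.card_filter_add_card_filter_not (s := Finset.range (2 * M))
      (fun j => ty (3 * j) ∨ ty (3 * j + 1))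
    rw [Finset.card_range] at this
    exact this
  by_cases h : M ≤ A.card
  · left
    obtain ⟨A', hA', hc⟩ := Finset.exists_subset_card_eq h
    let φ : ℕ → ℕ := fun j => if ty (3 * j) then 3 * j else 3 * j + 1
    have hφ : ∀ j, φ j = 3 * j ∨ φ j = 3 * j + 1 := by
      intro j
      change (if ty (3 * j) then 3 * j else 3 * j + 1) = 3 * j ∨
        (if ty (3 * j) then 3 * j else 3 * j + 1) = 3 * j + 1
      split_ifs
      · exact Or.inl rfl
      · exact Or.inr rfl
    refine ⟨A'.image φ, ?_, ?_, ?_⟩
    · rw [Finset.card_image_of_injective _ _, hc]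
      intro i j hij
      have h1 := hφ i
      have h2 := hφ j
      have h3 : φ i = φ j := hij
      omega
    · intro l hl
      rw [Finset.mem_image] at hl
      obtain ⟨j, hj, rfl⟩ := hl
      have hj' := hA' hj
      rw [hA, Finset.mem_filter, Finset.mem_range] at hj'
      constructor
      · have := hφ j
        omega
      · change ty (if ty (3 * j) then 3 * j else 3 * j + 1)
        split_ifs with h1
        · exact h1
        · exact hj'.2.resolve_left h1
    · intro l hl l' hl' hlt
      rw [Finset.mem_image] at hl hl'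
      obtain ⟨j, _, rfl⟩ := hl
      obtain ⟨j', _, rfl⟩ := hl'
      have h1 := hφ j
      have h2 := hφ j'
      have h3 : j ≠ j' := by
        rintro rfl
        exact lt_irrefl _ hlt
      omega
  · right
    obtain ⟨B', hB', hc⟩ := Finset.exists_subset_card_eq (s := B) (n := M) (by omega)
    refine ⟨B'.image (fun j => 3 * j), ?_, ?_, ?_⟩
    · rw [Finset.card_image_of_injective _ _, hc]
      intro i j hij
      have h3 : 3 * i = 3 * j := hij
      omega
    · intro l hl
      rw [Finset.mem_image] at hl
      obtain ⟨j, hj, rfl⟩ := hl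
      have hj' := hB' hj
      rw [hB, Finset.mem_filter, Finset.mem_range] at hj'
      refine ⟨?_, fun h1 => hj'.2 (Or.inl h1), fun h1 => hj'.2 (Or.inr h1)⟩
      show 3 * j < 6 * M
      omega
    · intro l hl l' hl' hlt
      rw [Finset.mem_image] at hl hl'
      obtain ⟨j, _, rfl⟩ := hl
      obtain ⟨j', _, rfl⟩ := hl'
      have h1 : 3 * j < 3 * j' := hlt
      show 3 * j + 3 ≤ 3 * j'
      omega

end TP
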