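import Pool.Agent.helper3.SP.SpecPP
import Pool.Agent.helper26.SP.UJ9

/-!
# Project sp (MP_7800de_pr), module PK2: the bit of a gate with a wire inside
-/

namespace TP

open DP MeasureTheory

theorem PK2_fl {c : V → Bool} {R : Set V} {u v : V} :
    Conn (fl c) true R u v ↔ Conn c false R u v := by
  have e : {w | w ∈ R ∧ fl c w = true} = {w | w ∈ R ∧ c w = false} := by
    ext w
    simp [fl]
  unfold Conn
  rw [e]

/-- Two standard arms of one colour, in different clusters. -/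
theorem PK2_arms (h30 : PP30_stmt) (c : V → Bool) (k : Bool) (x : V) (m n : ℕ)
    (hx : Even (x.1 + x.2)) (hm : 64 ≤ m) (hmn : 2 * m ≤ n)
    (hS : Std c 4 true x n (Dmark 4 x m)) :
    ∃ p ∈ bd x m, ∃ u ∈ bd x n, ∃ p' ∈ bd x m, ∃ u' ∈ bd x n,
      sd (zpt x m (if k = true then 0 else 1)) p ≤ m / 64 ∧
      sd (zpt x m (if k = true then 2 else 3)) p' ≤ m / 64 ∧
      Conn c k (ann x m n) p u ∧ Conn c k (ann x m n) p' u' ∧
      ¬ Conn c k (ann x m n) u u' := by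
  have hM : MrkC c 4 true x n (Dmark 4 x m) (zpt x n) (n / 64) (n / 8) k := by
    cases k
    · exact hS.2
    · exact hS.1
  have hsub : HS true x n \ ((Dmark 4 x m).N k ∪ opp 4 (zpt x n) (n / 8) k) ⊆ ann x m n := by
    intro z hz
    have h1 : sd x z ≤ n := hz.1
    refine ⟨?_, h1⟩
    by_contra hlt
    exact hz.2 (Or.inl (Or.inl (by simpa using hlt)))
  have hk0 : kol (if k = true then 0 else 1) = k := by cases k <;> rfl
  have hk2 : kol (if k = true then 2 else 3) = k := by cases k <;> rfl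
  have hl0 : (if k = true then 0 else 1) < 4 := by cases k <;> simp
  have hl2 : (if k = true then 2 else 3) < 4 := by cases k <;> simp
  have er0 : ((if k = true then 0 else 1) + 2) % 4 = (if k = true then 2 else 3) := by
    cases k <;> rfl
  have er2 : ((if k = true then 2 else 3) + 2) % 4 = (if k = true then 0 else 1) := by
    cases k <;> rfl
  rcases hM with hM | hM
  · obtain ⟨p, hp, u, hu, h1, h2⟩ := hM _ hl0 hk0
    obtain ⟨p', hp', u', hu', h1', h2'⟩ := hM _ hl2 hk2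
    refine ⟨p, hp.1, u, hu, p', hp'.1, u', hu', hp.2, hp'.2, h2.mono hsub, h2'.mono hsub, ?_⟩
    exact h30 c k x u u' p p' m n hx hm hmn hS hu hu' hp.1 hp'.1 h1 h1' (h2.mono hsub)
      (h2'.mono hsub)
  · obtain ⟨p, hp, u, hu, h1, h2⟩ := hM _ hl0 hk0
    obtain ⟨p', hp', u', hu', h1', h2'⟩ := hM _ hl2 hk2
    refine ⟨p, hp.1, u, hu, p', hp'.1, u', hu', hp.2, hp'.2, h2.mono hsub, h2'.mono hsub, ?_⟩
    rw [er0] at h1
    rw [er2] at h1'
    intro h
    exact h30 c k x u' u p' p m n hx hm hmn hS hu' hu hp'.1 hp.1 h1' h1 (h2'.mono hsub)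
      (h2.mono hsub) h.symm

/-- Two standard arms joined inside by a connected set which hooks. -/
theorem PK2_join (h30 : PP30_stmt) (c : V → Bool) (k : Bool) (x : V) (m n M N ℓ : ℕ) (U : Set V)
    (hx : Even (x.1 + x.2)) (hm : 64 ≤ m) (h1 : m = 32 * ℓ) (h2 : 2 * m ≤ M) (h3 : M < N)
    (h4 : N ≤ n) (hS : Std c 4 true x n (Dmark 4 x m)) (hU : CnS c k (box x N) U)
    (hk0 : Hok U (zpt x m (if k = true then 0 else 1)) ℓ)
    (hk2 : Hok U (zpt x m (if k = true then 2 else 3)) ℓ) :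
    ∃ u ∈ bd x N, ∃ v ∈ bd x N, (∃ p ∈ bd x M, Conn c k (ann x M N) p u) ∧
      (∃ q ∈ bd x M, Conn c k (ann x M N) q v) ∧ ¬ Conn c k (ann x M N) u v ∧
      Conn c k (box x N) u v := by
  obtain ⟨p, hp, u, hu, p', hp', u', hu', d0, d2, c0, c2, hne⟩ :=
    PK2_arms h30 c k x m n hx hm (by omega) hS
  have sp : sd x p = m := hp
  have sp' : sd x p' = m := hp'
  have su : sd x u = n := hu
  have su' : sd x u' = n := hu'
  obtain ⟨v, hv, e0, f0⟩ := UJ9_out (n := N) c0 (by omega) (by omega)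
  obtain ⟨v', hv', e2, f2⟩ := UJ9_out (n := N) c2 (by omega) (by omega)
  have sv : sd x v = N := hv
  have sv' : sd x v' = N := hv'
  obtain ⟨q, hq, g0, -⟩ := UJ9_in (m := M) e0 (by omega) (by omega)
  obtain ⟨q', hq', g2, -⟩ := UJ9_in (m := M) e2 (by omega) (by omega)
  have hA : ann x M N ⊆ ann x m n := fun z hz => ⟨by have := hz.1; omega, hz.2.trans h4⟩
  have hB : ann x m N ⊆ box x N := fun z hz => hz.2
  -- the hooks
  have zz : ∀ i : ℕ, sd x (zpt x m i) = m := by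
    intro i
    unfold zpt sd
    split_ifs <;> simp
  have far : ∀ (i : ℕ) (w : V), sd x w = N → 3 * ℓ ≤ sd (zpt x m i) w := by
    intro i w hw
    have t1 := sd_triangle x (zpt x m i) w
    have t2 := zz i
    omega
  have hook : ∀ (i : ℕ) (r w : V), Hok U (zpt x m i) ℓ → sd (zpt x m i) r ≤ m / 64 →
      sd x w = N → Conn c k (ann x m N) r w → ∃ z ∈ U, Conn c k (ann x m N) r z := by
    intro i r w hh hr hw hc
    obtain ⟨z, hz, hz'⟩ := hh {z | Conn c k (ann x m N) r z} r w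
      (DP.Con.mono (fun z hz => hz) (Con.cluster hc)) (by omega) (far i w hw)
    exact ⟨z, hz, hz'⟩
  obtain ⟨z, hz, hc⟩ := hook _ p v hk0 d0 sv e0
  obtain ⟨z', hz', hc'⟩ := hook _ p' v' hk2 d2 sv' e2
  refine ⟨v, hv, v', hv', ⟨q, hq, g0⟩, ⟨q', hq', g2⟩, fun e => hne ?_, ?_⟩
  · exact (f0.symm.trans (e.mono hA)).trans f2
  · have hzz : Conn c k (box x N) z z' := DP.Con.mono (fun w hw => hU.1 w hw) (hU.2 z hz z' hz')
    exact ((((e0.symm.trans hc).mono hB).trans hzz).trans ((hc'.symm.trans e2).mono hB))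

theorem PK2_wire (c : V → Bool) (k : Bool) (x : V) (ℓ N : ℕ) (w : Wire) (U : Set V)
    (hw : w.l = ℓ) (hb : w.bg = []) (d : ℕ) (hd : d = if k = true then 0 else 1)
    (hs : w.sg = [(zpt x (32 * ℓ) (d + 2), d, 32)]) (hN : 35 * ℓ ≤ N)
    (hU : CnS c k (regL w.all) U) (hH : ∀ q ∈ w.all, Hok U q.1 q.2) :
    CnS c k (box x N) U ∧ Hok U (zpt x (32 * ℓ) (if k = true then 0 else 1)) ℓ ∧
      Hok U (zpt x (32 * ℓ) (if k = true then 2 else 3)) ℓ := by
  have hall : ∀ q, q ∈ w.all ↔ ∃ t : ℕ, t < 33 ∧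
      (zpt (zpt x (32 * ℓ) (d + 2)) (2 * t * ℓ) d, ℓ) = q := by
    intro q
    unfold Wire.all Wire.cel
    rw [hb, hs, hw]
    simp [scel]
  have hp : ∀ t : ℕ, t < 33 → sd x (zpt (zpt x (32 * ℓ) (d + 2)) (2 * t * ℓ) d) ≤ 32 * ℓ := by
    intro t ht
    have h1 : 2 * t * ℓ ≤ 64 * ℓ := Nat.mul_le_mul_right _ (by omega)
    have h2 : (0 : ℤ) ≤ ((2 * t * ℓ : ℕ) : ℤ) := by positivity
    have h3 : ((2 * t * ℓ : ℕ) : ℤ) ≤ 64 * ℓ := by exact_mod_cast h1
    subst hd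
    cases k
    · simp only [Bool.false_eq_true, if_false]
      unfold zpt sd
      norm_num
      push_cast at h2 h3
      omega
    · simp only [if_true]
      unfold zpt sd
      norm_num
      push_cast at h2 h3
      omega
  refine ⟨⟨fun v hv => ⟨?_, (hU.1 v hv).2⟩, hU.2⟩, ?_, ?_⟩
  · obtain ⟨q, hq, hqv⟩ := (hU.1 v hv).1
    obtain ⟨t, ht, rfl⟩ := (hall q).1 hq
    have h1 := hp t ht
    have h2 := sd_triangle x (zpt (zpt x (32 * ℓ) (d + 2)) (2 * t * ℓ) d) v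
    show sd x v ≤ N
    simp only at hqv
    omega
  · have h := hH _ ((hall _).2 ⟨32, by norm_num, rfl⟩)
    have e : zpt (zpt x (32 * ℓ) (d + 2)) (2 * 32 * ℓ) d =
        zpt x (32 * ℓ) (if k = true then 0 else 1) := by
      subst hd
      cases k <;> (unfold zpt; norm_num; ring)
    rw [e] at h
    exact h
  · have h := hH _ ((hall _).2 ⟨0, by norm_num, rfl⟩)
    have e : zpt (zpt x (32 * ℓ) (d + 2)) (2 * 0 * ℓ) d =
        zpt x (32 * ℓ) (if k = true then 2 else 3) := by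
      subst hd
      cases k <;> simp [zpt]
    rw [e] at h
    exact h

theorem PK2_main (h10 : PP10_stmt) (h30 : PP30_stmt) (c : V → Bool) (k : Bool) (y : V) (g a : ℕ)
    (hg : 1 ≤ g) (ha : 12 ≤ a) (hy : Even (y.1 + y.2))
    (hS : Std c 4 true y (2 ^ (a + g + 1)) (Dmark 4 y (2 ^ (a - 1)))) (w : Wire)
    (hw : w = if k = true then coreB y (2 ^ (a - 6)) else coreW y (2 ^ (a - 6)))
    (hL : Lps c k w.all) :
    ∃ u ∈ bd y (2 ^ (a + g)), ∃ v ∈ bd y (2 ^ (a + g)),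
      (∃ p ∈ bd y (2 ^ a), Conn c k (ann y (2 ^ a) (2 ^ (a + g))) p u) ∧
      (∃ q ∈ bd y (2 ^ a), Conn c k (ann y (2 ^ a) (2 ^ (a + g))) q v) ∧
      ¬ Conn c k (ann y (2 ^ a) (2 ^ (a + g))) u v ∧ Conn c k (box y (2 ^ (a + g))) u v := by
  obtain ⟨a, rfl⟩ : ∃ a', a = a' + 6 := ⟨a - 6, by omega⟩
  have e1 : a + 6 - 6 = a := by omega
  have e2 : a + 6 - 1 = a + 5 := by omega
  have e3 : 2 ^ (a + 5) = 32 * 2 ^ a := by ring
  have e4 : 2 ^ (a + 6) = 64 * 2 ^ a := by ring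
  have e5 : 2 ^ (a + 6 + g + 1) = 2 * 2 ^ (a + 6 + g) := by ring
  have e6 : 2 ^ (a + 6) < 2 ^ (a + 6 + g) := Nat.pow_lt_pow_right (by norm_num) (by omega)
  have e7 : 2 ^ 6 ≤ 2 ^ a := Nat.pow_le_pow_right (by norm_num) (by omega)
  rw [e1] at hw
  rw [e2] at hS
  have hok : w.ok := by
    subst hw
    cases k
    · refine ⟨Nat.one_le_two_pow, by simp [coreW], ?_, ?_⟩
      · simp [coreW, Jnd]
      · simp [coreW]
    · refine ⟨Nat.one_le_two_pow, by simp [coreB], ?_, ?_⟩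
      · simp [coreB, Jnd]
      · simp [coreB]
  obtain ⟨U, hU, hH⟩ := h10 c k w hok hL
  obtain ⟨k1, k2, k3⟩ := PK2_wire c k y (2 ^ a) (2 ^ (a + 6 + g)) w U
    (by subst hw; cases k <;> rfl) (by subst hw; cases k <;> rfl) (if k = true then 0 else 1) rfl
    (by
      subst hw
      cases k
      · simp [coreW, zpt]
      · simp [coreB, zpt]) (by omega) hU hH
  rw [e3] at hS
  exact PK2_join h30 c k y (32 * 2 ^ a) (2 ^ (a + 6 + g + 1)) (2 ^ (a + 6)) (2 ^ (a + 6 + g))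
    (2 ^ a) U hy (by omega) rfl (by omega) e6 (by omega) hS k1 k2 k3

theorem PK2 (hD : DUAL_stmt) (h10 : PP10_stmt) (h30 : PP30_stmt) : PK2_stmt := by
  intro b y g a hg ha hy hb
  have hy' : Even (y.1 + y.2) := Int.even_iff.2 hy
  obtain ⟨hG, hS⟩ := hb
  have hG' : Gate (col b) y (2 ^ a) (2 ^ (a + g)) := hG
  have hS' : Std (col b) 4 true y (2 ^ (a + g + 1)) (Dmark 4 y (2 ^ (a - 1))) := hS
  refine ⟨fun hL => ?_, fun hL => ?_⟩
  · exact PK2_main h10 h30 (col b) true y g a hg ha hy' hS' _ rfl hL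
  · intro h
    refine ((hD (col b) y (2 ^ a) (2 ^ (a + g)) hy' Nat.one_le_two_pow
      (Nat.pow_lt_pow_right (by norm_num) (by omega)) hG').1 h) ?_
    obtain ⟨u, hu, v, hv, ⟨p, hp, h1⟩, ⟨q, hq, h2⟩, h3, h4⟩ :=
      PK2_main h10 h30 (col b) false y g a hg ha hy' hS' _ rfl hL
    exact ⟨u, hu, v, hv, ⟨p, hp, PK2_fl.2 h1⟩, ⟨q, hq, PK2_fl.2 h2⟩, fun e => h3 (PK2_fl.1 e),
      PK2_fl.2 h4⟩

end TP
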