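import Pool.Agent.helper3.SP.SpecPP
import Pool.Agent.helper26.SP.UJ9

/-!
# Project sp (MP_7800de_pr), module PP32: a gate with its two white clusters connected inside
-/

namespace TP

open DP MeasureTheory

theorem PP32_fl {c : V → Bool} {R : Set V} {u v : V} :
    Conn (fl c) true R u v ↔ Conn c false R u v := by
  have e : {w | w ∈ R ∧ fl c w = true} = {w | w ∈ R ∧ c w = false} := by
    ext w
    simp [fl]
  unfold Conn
  rw [e]

theorem PP32 (hGD : GD1_stmt) : PP32_stmt := by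
  intro c' x u u' p p' m₁ m₂ n₂ hx h1 h12 hmn hG hu hu' hp hp' hpu hpu' hne hin hfour
  have hG' : Gate (fl c') x m₂ n₂ := ((hGD c' x m₂ n₂ hx (by omega) hmn).2.2).2 hG
  have hf : four (fl c') x m₁ n₂ := ((hGD c' x m₁ n₂ hx h1 (by omega)).1).2 hfour
  rw [← PP32_fl] at hpu hpu' hne hin
  obtain ⟨a, ha, b, hb, ⟨a', ha', haa⟩, ⟨b', hb', hbb⟩, hab⟩ := hf
  have sa : sd x a = m₁ := ha
  have sb : sd x b = m₁ := hb
  have sa' : sd x a' = n₂ := ha'
  have sb' : sd x b' = n₂ := hb'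
  obtain ⟨q, hq, hqa, hq2⟩ := UJ9_in (m := m₂) haa (by omega) (by omega)
  obtain ⟨r, hr, hrb, hr2⟩ := UJ9_in (m := m₂) hbb (by omega) (by omega)
  have hA : ann x m₂ n₂ ⊆ ann x m₁ n₂ := UJ9_ann h12 le_rfl
  have hnp : ¬ Conn (fl c') true (ann x m₂ n₂) p p' := fun e =>
    hne (hpu.symm.trans (e.trans hpu'))
  -- every point of the pair is connected to `u` in the block
  have key : ∀ z ∈ bd x m₂, ∀ z' ∈ bd x n₂, Conn (fl c') true (ann x m₂ n₂) z z' →
      Conn (fl c') true (ann x m₁ n₂) u z := by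
    intro z hz z' hz' h
    rcases UJ9_three hG'.2 hp hp' hz ⟨u, hu, hpu⟩ ⟨u', hu', hpu'⟩ ⟨z', hz', h⟩ hnp with e | e
    · exact (hpu.symm.trans e).mono hA
    · exact hin.trans ((hpu'.symm.trans e).mono hA)
  exact hab ((hq2.trans (key q hq a' ha' hqa).symm).trans ((key r hr b' hb' hrb).trans hr2.symm))

end TP
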