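import Pool.Agent.helper1.SP.F2
import Pool.Agent.helper1.SP.GD3
import Pool.Agent.helper1.SP.K.GB
import Pool.Agent.helper1.SP.UJ19
import Pool.Agent.helper1.SP.VA2
import Pool.Agent.helper1.TP.SE1
import Pool.Agent.helper10.TP.QM
import Pool.Agent.helper11.SP.K.SX1
import Pool.Agent.helper11.SP.PK4
import Pool.Agent.helper11.SP.TA19
import Pool.Agent.helper11.SP.TB10
import Pool.Agent.helper11.SP.VA8
import Pool.Agent.helper11.TP.WIN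
import Pool.Agent.helper12.SP.REC
import Pool.Agent.helper12.SP.UJ13
import Pool.Agent.helper13.DP.PO
import Pool.Agent.helper13.SP.UJ7
import Pool.Agent.helper14.DP.AI
import Pool.Agent.helper14.SP.UJ14
import Pool.Agent.helper15.SP.GD0
import Pool.Agent.helper15.SP.GD1
import Pool.Agent.helper15.SP.TL10
import Pool.Agent.helper15.SP.TL11
import Pool.Agent.helper15.TP.BKP
import Pool.Agent.helper15.TP.BOTH
import Pool.Agent.helper16.SP.PK1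
import Pool.Agent.helper16.SP.TL0
import Pool.Agent.helper16.SP.TL4
import Pool.Agent.helper17.DP.ABS
import Pool.Agent.helper17.SP.AC2
import Pool.Agent.helper17.SP.TA15
import Pool.Agent.helper18.SP.B1
import Pool.Agent.helper18.SP.TL6
import Pool.Agent.helper18.SP.UJ6
import Pool.Agent.helper18.TP.GSC
import Pool.Agent.helper2.SP.PAR
import Pool.Agent.helper2.SP.SpecTA
import Pool.Agent.helper20.SP.PP23
import Pool.Agent.helper20.SP.TA7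
import Pool.Agent.helper20.SP.TL3
import Pool.Agent.helper20.SP.VA10
import Pool.Agent.helper20.TP.F3
import Pool.Agent.helper21.SP.PP6
import Pool.Agent.helper21.SP.TA14
import Pool.Agent.helper21.SP.TL7
import Pool.Agent.helper25.SP.UI4
import Pool.Agent.helper25.SP.UI7
import Pool.Agent.helper26.SP.UJ9
import Pool.Agent.helper26.SP.WB
import Pool.Agent.helper26.SP.WI
import Pool.Agent.helper26.TP.GV2
import Pool.Agent.helper27.SP.UJ20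
import Pool.Agent.helper27.SP.VA22
import Pool.Agent.helper28.SP.PP26
import Pool.Agent.helper29.DP.GFM
import Pool.Agent.helper29.DP.SUB
import Pool.Agent.helper3.DP.SpecG1
import Pool.Agent.helper3.SP.SpecPP
import Pool.Agent.helper30.DP.Bosss
import Pool.Agent.helper31.SP.SpecTL
import Pool.Agent.helper31.SP.TL18
import Pool.Agent.helper32.SP.GD2
import Pool.Agent.helper32.SP.K.STEP
import Pool.Agent.helper32.SP.UJ17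
import Pool.Agent.helper32.TP.PSV
import Pool.Agent.helper33.DP.CG
import Pool.Agent.helper33.SP.PK5
import Pool.Agent.helper33.SP.PK6
import Pool.Agent.helper33.SP.PP14
import Pool.Agent.helper33.SP.SpecC1
import Pool.Agent.helper33.SP.SpecC1S
import Pool.Agent.helper33.SP.SpecC2S
import Pool.Agent.helper33.SP.UI5
import Pool.Agent.helper33.SP.UI9
import Pool.Agent.helper33.SP.UJ2
import Pool.Agent.helper33.SP.VA13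
import Pool.Agent.helper33.SP.VA21
import Pool.Agent.helper38.DP.SF
import Pool.Agent.helper38.SP.ASM
import Pool.Agent.helper38.SP.K.LG
import Pool.Agent.helper38.SP.UJ16
import Pool.Agent.helper4.DP.CX
import Pool.Agent.helper4.SP.F3
import Pool.Agent.helper4.SP.UJ4
import Pool.Agent.helper43.SP.PP10
import Pool.Agent.helper43.SP.TA12
import Pool.Agent.helper43.SP.TB4
import Pool.Agent.helper43.SP.UJ15
import Pool.Agent.helper43.SP.VA17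
import Pool.Agent.helper45.SP.ASS1
import Pool.Agent.helper45.SP.K.SEP
import Pool.Agent.helper45.SP.TA10
import Pool.Agent.helper45.SP.UJ1
import Pool.Agent.helper45.SP.VA12
import Pool.Agent.helper45.SP.VA6
import Pool.Agent.helper46.SP.ASP1
import Pool.Agent.helper46.SP.PP15
import Pool.Agent.helper46.SP.TA9
import Pool.Agent.helper46.SP.TL5
import Pool.Agent.helper46.SP.UI3
import Pool.Agent.helper46.SP.VA11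
import Pool.Agent.helper49.DP.RTA
import Pool.Agent.helper49.SP.Defs
import Pool.Agent.helper49.SP.PK3
import Pool.Agent.helper49.SP.PP16
import Pool.Agent.helper49.SP.PP18
import Pool.Agent.helper49.SP.SpecAS
import Pool.Agent.helper51.DP.SQ
import Pool.Agent.helper51.SP.TA5
import Pool.Agent.helper51.SP.TA8
import Pool.Agent.helper51.SP.VA4
import Pool.Agent.helper51.TP.D1
import Pool.Agent.helper51.TP.D2
import Pool.Agent.helper51.TP.D3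
import Pool.Agent.helper51.TP.DA
import Pool.Agent.helper51.TP.DE
import Pool.Agent.helper51.TP.ML
import Pool.Agent.helper52.SP.B2
import Pool.Agent.helper52.SP.K.GP
import Pool.Agent.helper52.SP.PP11
import Pool.Agent.helper52.SP.PP25
import Pool.Agent.helper52.SP.TA4
import Pool.Agent.helper52.SP.TB3
import Pool.Agent.helper52.SP.UI10
import Pool.Agent.helper52.SP.UJ5
import Pool.Agent.helper52.TP.F3R
import Pool.Agent.helper54.SP.K.UPP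
import Pool.Agent.helper54.SP.PP31
import Pool.Agent.helper54.TP.PVI
import Pool.Agent.helper55.SP.K.GSB
import Pool.Agent.helper55.SP.K.GZ
import Pool.Agent.helper55.SP.K.SX3
import Pool.Agent.helper55.SP.S3
import Pool.Agent.helper55.TP.SEXI
import Pool.Agent.helper57.SP.K.WL
import Pool.Agent.helper57.SP.TA6
import Pool.Agent.helper57.SP.UJ3
import Pool.Agent.helper57.SP.VA18
import Pool.Agent.helper58.TP.ST
import Pool.Agent.helper6.SP.S2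
import Pool.Agent.helper6.SP.TL17
import Pool.Agent.helper60.DP.GV1
import Pool.Agent.helper60.DP.PR
import Pool.Agent.helper60.SP.TB6
import Pool.Agent.helper61.DP.AsmA
import Pool.Agent.helper61.DP.SpecA
import Pool.Agent.helper61.SP.D4
import Pool.Agent.helper61.SP.PP19
import Pool.Agent.helper61.SP.PP29
import Pool.Agent.helper61.SP.TA1
import Pool.Agent.helper61.SP.TB1
import Pool.Agent.helper61.SP.TB2
import Pool.Agent.helper61.TP.C12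
import Pool.Agent.helper61.TP.RSW
import Pool.Agent.helper61.TP.SpecR
import Pool.Agent.helper61.TP.Sym
import Pool.Agent.helper63.SP.PK7
import Pool.Agent.helper63.SP.PP30
import Pool.Agent.helper63.SP.PP33
import Pool.Agent.helper63.SP.TL1
import Pool.Agent.helper63.SP.VA9
import Pool.Agent.helper64.SP.TB5
import Pool.Agent.helper64.SP.TB7
import Pool.Agent.helper64.SP.VA15
import Pool.Agent.helper64.TP.API
import Pool.Agent.helper64.TP.BAll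
import Pool.Agent.helper64.TP.BBK
import Pool.Agent.helper64.TP.CH
import Pool.Agent.helper64.TP.DB
import Pool.Agent.helper64.TP.DEC
import Pool.Agent.helper64.TP.DL
import Pool.Agent.helper64.TP.EXR
import Pool.Agent.helper64.TP.EXT
import Pool.Agent.helper64.TP.GFU
import Pool.Agent.helper64.TP.GLO
import Pool.Agent.helper64.TP.GPV
import Pool.Agent.helper64.TP.GRO
import Pool.Agent.helper64.TP.GTR
import Pool.Agent.helper64.TP.GXL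
import Pool.Agent.helper64.TP.LB
import Pool.Agent.helper64.TP.NT
import Pool.Agent.helper64.TP.PSU
import Pool.Agent.helper64.TP.PVC
import Pool.Agent.helper64.TP.QMX
import Pool.Agent.helper64.TP.SUB
import Pool.Agent.helper64.TP.SUM
import Pool.Agent.helper64.TP.SpecC
import Pool.Agent.helper64.TP.SpecD
import Pool.Agent.helper64.TP.SpecE
import Pool.Agent.helper64.TP.SpecF
import Pool.Agent.helper64.TP.SpecG1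
import Pool.Agent.helper64.TP.TRQ
import Pool.Agent.helper65.SP.ASF1
import Pool.Agent.helper65.SP.TL15
import Pool.Agent.helper66.SP.PP13
import Pool.Agent.helper70.SP.PP21
import Pool.Agent.helper70.SP.TA11
import Pool.Agent.helper70.SP.TL9
import Pool.Agent.helper71.SP.AC1
import Pool.Agent.helper71.SP.GD
import Pool.Agent.helper71.SP.UJ12
import Pool.Agent.helper72.SP.PP17
import Pool.Agent.helper72.SP.TA2
import Pool.Agent.helper72.SP.TA3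
import Pool.Agent.helper72.SP.TL14
import Pool.Agent.helper72.SP.TL16
import Pool.Agent.helper73.SP.BTH
import Pool.Agent.helper73.SP.UJ11
import Pool.Agent.helper74.DP.CH
import Pool.Agent.helper74.SP.PP1
import Pool.Agent.helper74.SP.PP2
import Pool.Agent.helper74.SP.TL2
import Pool.Agent.helper74.SP.UI8
import Pool.Agent.helper74.TP.F3V
import Pool.Agent.helper77.SP.B3
import Pool.Agent.helper77.SP.UI6
import Pool.Agent.helper78.DP.MM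
import Pool.Agent.helper78.SP.PP20
import Pool.Agent.helper78.SP.PP22
import Pool.Agent.helper78.SP.PP3
import Pool.Agent.helper78.SP.PP35
import Pool.Agent.helper78.SP.PP5
import Pool.Agent.helper78.SP.TL12
import Pool.Agent.helper78.SP.UI2
import Pool.Agent.helper78.TP.MA
import Pool.Agent.helper78.TP.SEPO
import Pool.Agent.helper79.SP.LQ
import Pool.Agent.helper79.SP.M1
import Pool.Agent.helper79.SP.TA17
import Pool.Agent.helper79.SP.UJ8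
import Pool.Agent.helper79.SP.VA7
import Pool.Agent.helper82.SW.Asm
import Pool.Agent.helper82.SW.SpecW
import Pool.Agent.helper85.SP.UI1
import Pool.Agent.helper85.TP.SEPI
import Pool.Agent.helper91.SP.PP28
import Pool.Agent.helper91.SP.TA13
import Pool.Agent.helper91.TP.SE3
import Pool.Agent.helper92.DP.GCE
import Pool.Agent.helper92.SP.K.IND
import Pool.Agent.helper92.SP.PP12
import Pool.Agent.helper92.SP.PP24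
import Pool.Agent.helper92.SP.PP27
import Pool.Agent.helper92.SP.TA18
import Pool.Agent.helper92.TP.GV3
import Pool.Agent.helper95.DP.BEASY
import Pool.Agent.helper95.DP.GL
import Pool.Agent.helper95.DP.Main
import Pool.Agent.helper95.SP.AS_B4
import Pool.Agent.helper95.SP.AS_S4
import Pool.Agent.helper95.SP.K.CHS
import Pool.Agent.helper95.SP.PK2
import Pool.Agent.helper95.SP.PP32
import Pool.Agent.helper95.SP.PP36L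
import Pool.Agent.helper95.SP.QA
import Pool.Agent.helper95.SP.SpecCH
import Pool.Agent.helper95.SP.VA14
import Pool.Agent.helper95.SP.VA19
import Pool.Agent.helper95.SP.VA20
import Pool.Agent.helper95.TP.F3D
import Pool.Agent.helper95.TP.FRP
import Pool.Agent.helper96.DP.API
import Pool.Agent.helper96.DP.SpecD
import Pool.Agent.helper96.DP.SpecE
import Pool.Agent.helper96.DP.SpecF
import Pool.Agent.helper96.SP.SIXU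
import Pool.Agent.helper96.SP.SixC
import Pool.Agent.helper96.SP.SpecTB
import Pool.Agent.helper96.SP.TB8
import Pool.Agent.helper96.SP.TB9
import Pool.Agent.helper96.SP.TH
import Pool.Agent.helper96.SP.TL8
import Pool.Agent.helper96.SP.UJ10
import Pool.Agent.helper96.TP.SE2
import Pool.Agent.helper97.SP.PP4
import Pool.Agent.helper97.SP.TL13
import Pool.Agent.helper97.SP.UJ18
import Pool.Agent.helper97.SP.VA16
import Pool.Agent.helper98.SP.DUAL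
import Pool.Agent.helper98.SP.N3
import Pool.Agent.helper98.SP.PP36
import Pool.Agent.helper98.SP.SpecGA
import Pool.Agent.helper98.SP.TA16
import Pool.Agent.helper98.SP.VA1
import Pool.Agent.helper98.SP.VA5

/-! Assembly of the project sp (generated). -/

namespace Pool.Agent.helper95.SPM

theorem TP_P1_stmt : TP.P1_stmt :=
  TP.ASP1

theorem TP_UJ1_stmt : TP.UJ1_stmt :=
  TP.UJ1

theorem TP_UJ2_stmt : TP.UJ2_stmt :=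
  TP.UJ2

theorem TP_UJ3_stmt : TP.UJ3_stmt :=
  TP.UJ3 TP_UJ1_stmt TP_UJ2_stmt

theorem TP_UJ4_stmt : TP.UJ4_stmt :=
  TP.UJ4

theorem TP_PAR_stmt : TP.PAR_stmt :=
  TP.PAR TP_UJ3_stmt TP_UJ4_stmt

theorem TP_F1_stmt : TP.F1_stmt :=
  TP.ASF1

theorem TP_F2_stmt : TP.F2_stmt :=
  TP.F2

theorem TP_B1_stmt : TP.B1_stmt :=
  TP.B1

theorem TP_B2_stmt : TP.B2_stmt :=
  TP.B2

theorem TP_B3_stmt : TP.B3_stmt :=
  TP.B3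

theorem TP_B4_stmt : TP.B4_stmt :=
  TP.AS_B4

theorem TP_M1_stmt : TP.M1_stmt :=
  TP.M1 TP_PAR_stmt TP_F1_stmt TP_F2_stmt TP_B1_stmt TP_B2_stmt TP_B3_stmt TP_B4_stmt

theorem TP_AC1_stmt : TP.AC1_stmt :=
  TP.AC1

theorem TP_AC2_stmt : TP.AC2_stmt :=
  TP.AC2

theorem TP_S1_stmt : TP.S1_stmt :=
  TP.ASS1

theorem TP_S2_stmt : TP.S2_stmt :=
  TP.S2

theorem TP_S3_stmt : TP.S3_stmt :=
  TP.S3

theorem TP_S4_stmt : TP.S4_stmt :=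
  TP.AS_S4

theorem TP_ASF3_stmt : TP.ASF3_stmt :=
  TP.ASF3

theorem DP_TC_stmt : DP.TC_stmt :=
  DP.Main.m_TC

theorem TP_Bindep_stmt : TP.Bindep_stmt :=
  TP.Bindep

theorem TP_Bzero_stmt : TP.Bzero_stmt :=
  TP.Bzero

theorem TP_C2_stmt : TP.C2_stmt :=
  TP.C2

theorem TP_SIXU_stmt : TP.SIXU_stmt :=
  TP.SIXU DP_TC_stmt TP_Bindep_stmt TP_Bzero_stmt TP_C2_stmt

theorem TP_UI1_stmt : TP.UI1_stmt :=
  TP.UI1

theorem TP_UI2_stmt : TP.UI2_stmt :=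
  TP.UI2 TP_UI1_stmt

theorem TP_UI3_stmt : TP.UI3_stmt :=
  TP.UI3 DP_TC_stmt

theorem DP_HX_stmt : DP.HX_stmt :=
  DP.Asm_HX

theorem DP_RC_stmt : DP.RC_stmt :=
  DP.Asm_RC

theorem TP_UI10_stmt : TP.UI10_stmt :=
  TP.UI10 DP_HX_stmt DP_RC_stmt

theorem DP_AM_stmt : DP.AM_stmt :=
  DP.SUB_AM

theorem TP_UI4_stmt : TP.UI4_stmt :=
  TP.UI4 TP_UI2_stmt TP_UI3_stmt TP_UI10_stmt DP_AM_stmt

theorem TP_UI5_stmt : TP.UI5_stmt :=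
  TP.UI5

theorem TP_UI6_stmt : TP.UI6_stmt :=
  TP.UI6 TP_UI5_stmt TP_Bindep_stmt TP_Bzero_stmt

theorem TP_Bsym_stmt : TP.Bsym_stmt :=
  TP.Bsym

theorem TP_Bmarg_stmt : TP.Bmarg_stmt :=
  TP.Bmarg

theorem TP_UI7_stmt : TP.UI7_stmt :=
  TP.UI7 TP_Bsym_stmt TP_Bmarg_stmt TP_UI5_stmt

theorem TP_QZ_stmt : TP.QZ_stmt :=
  TP.QZ TP_Bzero_stmt

theorem DP_LH_stmt : DP.LH_stmt :=
  DP.Asm_LH

theorem DP_LC_stmt : DP.LC_stmt :=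
  DP.Asm_LC

theorem DP_LN_stmt : DP.LN_stmt :=
  DP.Asm_LN

theorem DP_CH1_stmt : DP.CH1_stmt :=
  DP.CH1 DP_LC_stmt DP_LN_stmt

theorem DP_OT_stmt : DP.OT_stmt :=
  DP.Asm_OT

theorem DP_OF_stmt : DP.OF_stmt :=
  DP.Asm_OF

theorem DP_GL_stmt : DP.GL_stmt :=
  DP.GLgl DP_LH_stmt DP_LC_stmt DP_CH1_stmt DP_OT_stmt DP_OF_stmt

theorem TP_C1_stmt : TP.C1_stmt :=
  TP.C1

theorem TP_Bfkg_stmt : TP.Bfkg_stmt :=
  TP.Bfkg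

theorem TP_Bsq_stmt : TP.Bsq_stmt :=
  TP.Bsq

theorem TP_Bgen_stmt : TP.Bgen_stmt :=
  TP.Bgen

theorem DP_Bmono_stmt : DP.Bmono_stmt :=
  DP.Bmono

theorem TP_SE1_stmt : TP.SE1_stmt :=
  TP.SE1 DP_LH_stmt DP_LC_stmt DP_CH1_stmt TP_C1_stmt TP_Bfkg_stmt TP_Bsq_stmt TP_Bgen_stmt DP_Bmono_stmt

theorem DP_CG1_stmt : DP.CG1_stmt :=
  DP.CG1

theorem DP_CG2_stmt : DP.CG2_stmt :=
  DP.CG2

theorem DP_TO_stmt : DP.TO_stmt :=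
  DP.Asm_TO

theorem DP_TI_stmt : DP.TI_stmt :=
  DP.Asm_TI

theorem DP_SQ_stmt : DP.SQ_stmt :=
  DP.SQ

theorem TP_Bbk_stmt : TP.Bbk_stmt :=
  TP.Bbk

theorem TP_MA_stmt : TP.MA_stmt :=
  TP.MA TP_Bbk_stmt DP_LH_stmt

theorem TP_D1_stmt : TP.D1_stmt :=
  TP.D1 TP_C1_stmt DP_TO_stmt DP_TI_stmt DP_SQ_stmt TP_MA_stmt DP_CG1_stmt DP_CG2_stmt

theorem TP_D2_stmt : TP.D2_stmt :=
  TP.D2 TP_Bbk_stmt

theorem TP_DB_stmt : TP.DB_stmt :=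
  TP.DB TP_D1_stmt TP_D2_stmt TP_C2_stmt

theorem TP_DL_stmt : TP.DL_stmt :=
  TP.DL

theorem TP_BN_stmt : TP.BN_stmt :=
  TP.BN

theorem DP_QO_stmt : DP.QO_stmt :=
  DP.Asm_QO

theorem DP_QI_stmt : DP.QI_stmt :=
  DP.Asm_QI

theorem TP_DE_stmt : TP.DE_stmt :=
  TP.DE DP_TO_stmt DP_TI_stmt

theorem TP_ML_stmt : TP.ML_stmt :=
  TP.ML

theorem DP_CG3_stmt : DP.CG3_stmt :=
  DP.CG3

theorem TP_DA_stmt : TP.DA_stmt :=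
  TP.DA TP_ML_stmt DP_CG3_stmt

theorem TP_D3_stmt : TP.D3_stmt :=
  TP.D3 DP_CG1_stmt DP_QO_stmt DP_QI_stmt TP_DE_stmt TP_DA_stmt

theorem TP_NT_stmt : TP.NT_stmt :=
  TP.NT TP_BN_stmt TP_D3_stmt DP_CG1_stmt DP_CG2_stmt

theorem DP_RTA_stmt : DP.RTA_stmt :=
  DP.RTA

theorem DP_RTB_stmt : DP.RTB_stmt :=
  DP.Main.m_RTB

theorem DP_MI_stmt : DP.MI_stmt :=
  DP.Main.m_MI

theorem TP_CH3_stmt : TP.CH3_stmt :=
  TP.CH3 TP_Bfkg_stmt TP_Bsq_stmt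

theorem TP_CH4_stmt : TP.CH4_stmt :=
  TP.CH4

theorem TP_SE2_stmt : TP.SE2_stmt :=
  TP.SE2 DP_RTA_stmt DP_RTB_stmt DP_MI_stmt TP_Bgen_stmt TP_Bfkg_stmt DP_Bmono_stmt TP_CH3_stmt TP_CH4_stmt TP_C1_stmt

theorem DP_Bsub_stmt : DP.Bsub_stmt :=
  DP.Bsub

theorem DP_Bunion_stmt : DP.Bunion_stmt :=
  DP.Bunion

theorem TP_Bcs_stmt : TP.Bcs_stmt :=
  TP.Bcs

theorem TP_Bsymm_stmt : TP.Bsymm_stmt :=
  TP.Bsymm

theorem TP_SE3_stmt : TP.SE3_stmt :=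
  TP.SE3 DP_CG1_stmt DP_CG2_stmt TP_DB_stmt TP_DL_stmt TP_NT_stmt TP_SE2_stmt DP_Bmono_stmt DP_Bsub_stmt DP_Bunion_stmt TP_Bcs_stmt TP_Bindep_stmt TP_Bmarg_stmt TP_Bsymm_stmt

theorem TP_SEPO_stmt : TP.SEPO_stmt :=
  TP.SEPO TP_SE1_stmt TP_SE3_stmt

theorem TP_GXF_stmt : TP.GXF_stmt :=
  TP.GXF

theorem TP_SEXI_stmt : TP.SEXI_stmt :=
  TP.SEXI TP_SE1_stmt TP_SE3_stmt TP_GXF_stmt

theorem TP_SEPI_stmt : TP.SEPI_stmt :=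
  TP.SEPI TP_SEXI_stmt

theorem DP_CH2_stmt : DP.CH2_stmt :=
  DP.CH2 DP_LH_stmt DP_CH1_stmt

theorem TP_LB_stmt : TP.LB_stmt :=
  TP.LB TP_C1_stmt DP_CH2_stmt TP_CH3_stmt TP_CH4_stmt TP_Bindep_stmt DP_Bmono_stmt

theorem DP_SF_stmt : DP.SF_stmt :=
  DP.SF

theorem DP_FA_stmt : DP.FA_stmt :=
  DP.Main.m_FA

theorem TP_EXT_stmt : TP.EXT_stmt :=
  TP.EXT TP_SEPO_stmt TP_SEPI_stmt TP_LB_stmt DP_SF_stmt DP_FA_stmt DP_AM_stmt DP_Bmono_stmt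

theorem TP_QM_stmt : TP.QM_stmt :=
  TP.QM DP_GL_stmt TP_SEPO_stmt TP_SEPI_stmt TP_LB_stmt TP_EXT_stmt DP_FA_stmt DP_AM_stmt TP_C1_stmt TP_Bfkg_stmt TP_Bsq_stmt TP_Bgen_stmt TP_Bindep_stmt DP_Bmono_stmt

theorem TP_SUB_stmt : TP.SUB_stmt :=
  TP.SUB DP_Bmono_stmt TP_Bindep_stmt

theorem TP_QMX_stmt : TP.QMX_stmt :=
  TP.QMX TP_QM_stmt TP_EXT_stmt TP_SUB_stmt

theorem TP_EXR_stmt : TP.EXR_stmt :=
  TP.EXR TP_EXT_stmt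

theorem TP_UI8_stmt : TP.UI8_stmt :=
  TP.UI8 TP_QZ_stmt TP_QMX_stmt TP_EXR_stmt

theorem TP_Bflip_stmt : TP.Bflip_stmt :=
  TP.Bflip

theorem TP_U1i_stmt : TP.U1i_stmt :=
  TP.UI9 TP_SIXU_stmt TP_UI4_stmt TP_UI5_stmt TP_UI6_stmt TP_UI7_stmt TP_UI8_stmt TP_Bflip_stmt DP_AM_stmt

theorem TP_UJ5_stmt : TP.UJ5_stmt :=
  TP.UJ5

theorem TP_UJ6_stmt : TP.UJ6_stmt :=
  TP.UJ6

theorem TP_UJ7_stmt : TP.UJ7_stmt :=
  TP.UJ7 TP_UJ5_stmt TP_UJ6_stmt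

theorem TP_UJ8_stmt : TP.UJ8_stmt :=
  TP.UJ8

theorem TP_K_LG_stmt : TP.K.LG_stmt :=
  TP.K.LG

theorem DP_IF_stmt : DP.IF_stmt :=
  DP.Asm_IF

theorem DP_MF_stmt : DP.MF_stmt :=
  DP.MF DP_OT_stmt DP_IF_stmt

theorem TP_K_LQ_stmt : TP.K.LQ_stmt :=
  TP.K.LQ DP_AM_stmt DP_MF_stmt DP_SF_stmt DP_FA_stmt

theorem TP_UJ13_stmt : TP.UJ13_stmt :=
  TP.UJ13 TP_K_LG_stmt TP_K_LQ_stmt

theorem TP_UJ11_stmt : TP.UJ11_stmt :=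
  TP.UJ11 TP_UI1_stmt

theorem TP_UJ9_stmt : TP.UJ9_stmt :=
  TP.UJ9

theorem TP_UJ10_stmt : TP.UJ10_stmt :=
  TP.UJ10

theorem TP_UJ12_stmt : TP.UJ12_stmt :=
  TP.UJ12 TP_UJ9_stmt TP_UJ10_stmt

theorem TP_UJ14_stmt : TP.UJ14_stmt :=
  TP.UJ14 TP_UJ11_stmt TP_UJ12_stmt

theorem TP_UJ15_stmt : TP.UJ15_stmt :=
  TP.UJ15 TP_UI1_stmt DP_AM_stmt

theorem DP_MM_stmt : DP.MM_stmt :=
  DP.MM DP_OT_stmt

theorem TP_BOTH_stmt : TP.BOTH_stmt :=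
  TP.BOTH TP_SEPI_stmt TP_SEPO_stmt DP_MF_stmt DP_MM_stmt TP_LB_stmt TP_SE1_stmt DP_FA_stmt DP_AM_stmt DP_Bmono_stmt

theorem TP_K_BTH_stmt : TP.K.BTH_stmt :=
  TP.K.BTH TP_BOTH_stmt TP_Bzero_stmt TP_K_LQ_stmt

theorem TP_K_N3I_stmt : TP.K.N3I_stmt :=
  TP.N3I TP_Bindep_stmt TP_Bzero_stmt TP_C2_stmt

theorem TP_K_GSB_stmt : TP.K.GSB_stmt :=
  TP.K.GSB TP_K_BTH_stmt TP_K_N3I_stmt TP_K_LQ_stmt

theorem TP_K_GD_stmt : TP.K.GD_stmt :=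
  TP.K.GD DP_LH_stmt DP_LC_stmt DP_CH1_stmt

theorem TP_K_GP_stmt : TP.K.GP_stmt :=
  TP.K.GP TP_K_GD_stmt TP_C1_stmt TP_Bfkg_stmt TP_Bsq_stmt TP_Bgen_stmt TP_Bindep_stmt DP_Bmono_stmt TP_Bzero_stmt

theorem TP_K_GZ_stmt : TP.K.GZ_stmt :=
  TP.K.GZ TP_K_GP_stmt

theorem TP_K_GB_stmt : TP.K.GB_stmt :=
  TP.K.GB TP_K_GZ_stmt

theorem TP_K_WI_stmt : TP.K.WI_stmt :=
  TP.K.WI

theorem TP_K_WB_stmt : TP.K.WB_stmt :=
  TP.K.WB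

theorem TP_K_UPP_stmt : TP.K.UPP_stmt :=
  TP.K.UPP TP_K_LQ_stmt TP_K_WI_stmt TP_K_WB_stmt

theorem TP_UJ16_stmt : TP.UJ16_stmt :=
  TP.UJ16 TP_K_GSB_stmt TP_K_BTH_stmt TP_K_GB_stmt TP_K_UPP_stmt TP_K_WB_stmt TP_K_LQ_stmt TP_UI7_stmt

theorem TP_UJ17_stmt : TP.UJ17_stmt :=
  TP.UJ17 TP_UJ5_stmt TP_UI7_stmt

theorem TP_UJ18_stmt : TP.UJ18_stmt :=
  TP.UJ18 TP_UJ16_stmt TP_UJ17_stmt TP_K_LQ_stmt TP_UI7_stmt TP_UI8_stmt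

theorem TP_GXL_stmt : TP.GXL_stmt :=
  TP.GXL

theorem TP_K_SEP_stmt : TP.K.SEP_stmt :=
  TP.K.SEP TP_SEPO_stmt TP_LB_stmt DP_FA_stmt DP_AM_stmt TP_GXL_stmt TP_GXF_stmt TP_Bzero_stmt

theorem TP_K_WL_stmt : TP.K.WL_stmt :=
  TP.K.WL

theorem TP_K_SX1_stmt : TP.K.SX1_stmt :=
  TP.K.SX1 TP_SE1_stmt TP_GXL_stmt TP_Bzero_stmt

theorem TP_K_SX3_stmt : TP.K.SX3_stmt :=
  TP.K.SX3 TP_SE3_stmt TP_Bzero_stmt TP_GXL_stmt TP_GXF_stmt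

theorem TP_K_REC_stmt : TP.K.REC_stmt :=
  TP.K.REC DP_FA_stmt DP_AM_stmt TP_K_WL_stmt TP_K_LQ_stmt TP_K_SX1_stmt TP_K_SX3_stmt

theorem TP_K_IND_stmt : TP.K.IND_stmt :=
  TP.K.IND TP_K_SEP_stmt TP_K_REC_stmt TP_K_WB_stmt TP_K_LQ_stmt

theorem TP_K_STEP_stmt : TP.K.STEP_stmt :=
  TP.K.STEP TP_K_GZ_stmt TP_K_BTH_stmt TP_K_UPP_stmt TP_K_LQ_stmt TP_K_WB_stmt

theorem TP_K_CHS_stmt : TP.K.CHS_stmt :=
  TP.K.CHS TP_K_IND_stmt TP_K_STEP_stmt TP_K_WB_stmt TP_K_LQ_stmt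

theorem TP_K_CHE_stmt : TP.K.CHE_stmt :=
  TP.K.CHE TP_K_CHS_stmt TP_K_WB_stmt

theorem TP_UJ19_stmt : TP.UJ19_stmt :=
  TP.UJ19 TP_UJ13_stmt TP_UJ18_stmt TP_K_CHE_stmt TP_K_WB_stmt TP_K_LQ_stmt TP_UI7_stmt

theorem TP_U2i_stmt : TP.U2i_stmt :=
  TP.UJ20 TP_UJ3_stmt TP_UJ4_stmt TP_UJ5_stmt TP_UJ7_stmt TP_UJ8_stmt TP_UJ13_stmt TP_UJ14_stmt TP_UJ15_stmt TP_UJ19_stmt TP_UI8_stmt TP_K_LQ_stmt

theorem TP_VA8_stmt : TP.VA8_stmt :=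
  TP.VA8

theorem DP_FI_stmt : DP.FI_stmt :=
  DP.Asm_FI

theorem DP_PO_stmt : DP.PO_stmt :=
  DP.PO

theorem TP_GD1_stmt : TP.GD1_stmt :=
  TP.GD1 DP_TC_stmt DP_FI_stmt DP_IF_stmt DP_QI_stmt DP_PO_stmt

theorem TP_VA5_stmt : TP.VA5_stmt :=
  TP.VA5 TP_GD1_stmt

theorem TP_VA1_stmt : TP.VA1_stmt :=
  TP.VA1

theorem TP_VA7_stmt : TP.VA7_stmt :=
  TP.VA7 TP_VA1_stmt TP_VA5_stmt TP_UJ13_stmt

theorem TP_VA9_stmt : TP.VA9_stmt :=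
  TP.VA9

theorem TP_VA2_stmt : TP.VA2_stmt :=
  TP.VA2 TP_VA1_stmt TP_UJ5_stmt

theorem DP_FO_stmt : DP.FO_stmt :=
  DP.Asm_FO

theorem DP_SI_stmt : DP.SI_stmt :=
  DP.Asm_SI

theorem DP_AC_stmt : DP.AC_stmt :=
  DP.Asm_AC

theorem TP_GD2_stmt : TP.GD2_stmt :=
  TP.GD2 DP_FO_stmt DP_OF_stmt DP_SI_stmt DP_AC_stmt TP_GD1_stmt

theorem DP_AI_stmt : DP.AI_stmt :=
  DP.AI DP_PO_stmt

theorem DP_PR_stmt : DP.PR_stmt :=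
  DP.PR

theorem TP_GD0_stmt : TP.GD0_stmt :=
  TP.GD0 DP_PO_stmt DP_AI_stmt DP_PR_stmt

theorem DP_CX_stmt : DP.CX_stmt :=
  DP.CX

theorem TP_GD3_stmt : TP.GD3_stmt :=
  TP.GD3 TP_GD0_stmt DP_FO_stmt DP_OF_stmt DP_SI_stmt DP_CX_stmt DP_PO_stmt DP_AC_stmt

theorem TP_DUAL_stmt : TP.DUAL_stmt :=
  TP.DUAL TP_GD2_stmt TP_GD3_stmt

theorem TP_VA4_stmt : TP.VA4_stmt :=
  TP.VA4 TP_GD1_stmt TP_DUAL_stmt TP_UJ9_stmt TP_UJ10_stmt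

theorem TP_VA6_stmt : TP.VA6_stmt :=
  TP.VA6 TP_VA4_stmt TP_VA5_stmt TP_UI5_stmt

theorem TP_VA10_stmt : TP.VA10_stmt :=
  TP.VA10 TP_VA1_stmt TP_VA2_stmt TP_UJ4_stmt TP_VA5_stmt TP_VA6_stmt TP_VA7_stmt TP_VA9_stmt TP_UJ5_stmt

theorem TP_VA11_stmt : TP.VA11_stmt :=
  TP.VA11 TP_UJ4_stmt TP_UJ5_stmt TP_VA5_stmt TP_VA8_stmt TP_VA10_stmt

theorem TP_VA12_stmt : TP.VA12_stmt :=
  TP.VA12 TP_VA7_stmt TP_VA9_stmt TP_UJ5_stmt TP_UJ4_stmt TP_UJ15_stmt TP_K_LQ_stmt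

theorem TP_VA13_stmt : TP.VA13_stmt :=
  TP.VA13 TP_UJ4_stmt TP_UJ5_stmt TP_VA5_stmt TP_VA7_stmt TP_VA9_stmt TP_VA11_stmt TP_VA12_stmt TP_K_LQ_stmt

theorem TP_VA14_stmt : TP.VA14_stmt :=
  TP.VA14 TP_K_WI_stmt TP_K_WB_stmt TP_K_LQ_stmt TP_UI7_stmt TP_UJ5_stmt TP_VA7_stmt TP_VA8_stmt

theorem TP_VA15_stmt : TP.VA15_stmt :=
  TP.VA15 TP_SE2_stmt TP_Bzero_stmt DP_CG1_stmt DP_CG2_stmt

theorem TP_VA16_stmt : TP.VA16_stmt :=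
  TP.VA16 TP_VA15_stmt TP_K_GP_stmt TP_K_LQ_stmt

theorem TP_VA17_stmt : TP.VA17_stmt :=
  TP.VA17 TP_K_SX1_stmt TP_K_LQ_stmt TP_Bindep_stmt TP_Bzero_stmt

theorem TP_QA_stmt : TP.QA_stmt :=
  TP.QA TP_EXT_stmt DP_AM_stmt TP_Bzero_stmt TP_K_LQ_stmt

theorem TP_K_QAA_stmt : TP.K.QAA_stmt :=
  TP.QA_QAA TP_QA_stmt

theorem TP_VA18_stmt : TP.VA18_stmt :=
  TP.VA18 TP_K_GSB_stmt TP_K_SX1_stmt TP_K_GB_stmt TP_K_BTH_stmt TP_K_QAA_stmt TP_UI7_stmt TP_K_WB_stmt TP_K_LG_stmt TP_K_LQ_stmt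

theorem TP_VA19_stmt : TP.VA19_stmt :=
  TP.VA19 TP_UJ5_stmt TP_K_LQ_stmt TP_K_GB_stmt TP_VA16_stmt TP_VA17_stmt TP_VA18_stmt

theorem TP_VA20_stmt : TP.VA20_stmt :=
  TP.VA20 TP_K_CHE_stmt TP_VA7_stmt TP_VA19_stmt TP_UI7_stmt

theorem TP_VA21_stmt : TP.VA21_stmt :=
  TP.VA21 TP_UI8_stmt

theorem TP_U2ii_stmt : TP.U2ii_stmt :=
  TP.VA22 TP_UJ3_stmt TP_UJ4_stmt TP_VA8_stmt TP_VA13_stmt TP_VA14_stmt TP_VA20_stmt TP_VA21_stmt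

theorem TP_PP2_stmt : TP.PP2_stmt :=
  TP.PP2 DP_HX_stmt DP_RC_stmt

theorem TP_PP1_stmt : TP.PP1_stmt :=
  TP.PP1 TP_UJ11_stmt TP_UJ12_stmt

theorem TP_PP3_stmt : TP.PP3_stmt :=
  TP.PP3 TP_PP1_stmt TP_PP2_stmt

theorem TP_PP4_stmt : TP.PP4_stmt :=
  TP.PP4 TP_PP2_stmt TP_PP3_stmt TP_UJ11_stmt

theorem TP_PP5_stmt : TP.PP5_stmt :=
  TP.PP5

theorem TP_K_CHX_stmt : TP.K.CHX_stmt :=
  TP.K.CHX TP_K_CHE_stmt TP_K_WB_stmt TP_K_LQ_stmt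

theorem TP_PP10_stmt : TP.PP10_stmt :=
  TP.PP10 DP_LC_stmt DP_LN_stmt DP_LH_stmt

theorem TP_PP13_stmt : TP.PP13_stmt :=
  TP.PP13

theorem TP_PP14_stmt : TP.PP14_stmt :=
  TP.PP14

theorem TP_PP15_stmt : TP.PP15_stmt :=
  TP.PP15

theorem TP_PP17_stmt : TP.PP17_stmt :=
  TP.PP17 TP_PP14_stmt TP_PP15_stmt

theorem TP_PP21_stmt : TP.PP21_stmt :=
  TP.PP21

theorem TP_PP22_stmt : TP.PP22_stmt :=
  TP.PP22

theorem TP_PP23_stmt : TP.PP23_stmt :=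
  TP.PP23 TP_PP14_stmt

theorem TP_PP24_stmt : TP.PP24_stmt :=
  TP.PP24 TP_PP14_stmt

theorem TP_PP25_stmt : TP.PP25_stmt :=
  TP.PP25 TP_PP14_stmt

theorem TP_PP26_stmt : TP.PP26_stmt :=
  TP.PP26 TP_PP10_stmt TP_PP13_stmt TP_PP14_stmt TP_PP17_stmt TP_PP21_stmt TP_PP22_stmt TP_PP23_stmt TP_PP24_stmt TP_PP25_stmt

theorem TP_PP27_stmt : TP.PP27_stmt :=
  TP.PP27 TP_PP26_stmt

theorem TP_PP28_stmt : TP.PP28_stmt :=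
  TP.PP28 TP_PP10_stmt TP_PP13_stmt TP_PP17_stmt

theorem TP_PP29_stmt : TP.PP29_stmt :=
  TP.PP29 TP_PP28_stmt

theorem TP_PP30_stmt : TP.PP30_stmt :=
  TP.PP30 DP_OF_stmt

theorem TP_PP31_stmt : TP.PP31_stmt :=
  TP.PP31 TP_PP28_stmt TP_PP30_stmt

theorem TP_PP32_stmt : TP.PP32_stmt :=
  TP.PP32 TP_GD1_stmt

theorem TP_PP33_stmt : TP.PP33_stmt :=
  TP.PP33 DP_SF_stmt DP_MF_stmt DP_AM_stmt TP_PP27_stmt TP_PP29_stmt TP_PP31_stmt TP_PP32_stmt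

theorem TP_RLL_stmt : TP.RLL_stmt :=
  TP.RLL

theorem TP_TFK_stmt : TP.TFK_stmt :=
  TP.TFK

theorem TP_PP11_stmt : TP.PP11_stmt :=
  TP.PP11 TP_RLL_stmt TP_TFK_stmt

theorem TP_PP12_stmt : TP.PP12_stmt :=
  TP.PP12 TP_Bgen_stmt TP_Bzero_stmt

theorem TP_PP16_stmt : TP.PP16_stmt :=
  TP.PP16 TP_PP14_stmt TP_PP15_stmt

theorem TP_PP18_stmt : TP.PP18_stmt :=
  TP.PP18 TP_PP14_stmt TP_PP15_stmt

theorem TP_PP19_stmt : TP.PP19_stmt :=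
  TP.PP19 TP_PP14_stmt TP_PP15_stmt

theorem TP_PP20_stmt : TP.PP20_stmt :=
  TP.PP20

theorem TP_PP36_L_stmt : TP.PP36_L_stmt :=
  TP.PP36_L TP_GXL_stmt TP_C1_stmt TP_PP11_stmt TP_PP12_stmt TP_PP13_stmt TP_PP16_stmt TP_PP17_stmt TP_PP18_stmt TP_PP19_stmt TP_PP20_stmt

theorem TP_PP35_stmt : TP.PP35_stmt :=
  TP.PP35

theorem TP_TB4_stmt : TP.TB4_stmt :=
  TP.TB4

theorem TP_TB7_stmt : TP.TB7_stmt :=
  TP.TB7

theorem TP_TB1_stmt : TP.TB1_stmt :=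
  TP.TB1

theorem TP_TB2_stmt : TP.TB2_stmt :=
  TP.TB2

theorem TP_TB3_stmt : TP.TB3_stmt :=
  TP.TB3 DP_RTA_stmt

theorem TP_TB5_stmt : TP.TB5_stmt :=
  TP.TB5 DP_LH_stmt DP_LC_stmt DP_CH1_stmt

theorem TP_TB6_stmt : TP.TB6_stmt :=
  TP.TB6 TP_TB5_stmt

theorem TP_TB8_stmt : TP.TB8_stmt :=
  TP.TB8 TP_C1_stmt TP_CH3_stmt TP_CH4_stmt TP_TB6_stmt TP_TB7_stmt

theorem TP_TB9_stmt : TP.TB9_stmt :=
  TP.TB9 TP_TB1_stmt TP_TB2_stmt TP_TB3_stmt TP_TB4_stmt TP_TB8_stmt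

theorem TP_TB10_stmt : TP.TB10_stmt :=
  TP.TB10 TP_C1_stmt DP_CH1_stmt TP_CH3_stmt TP_CH4_stmt TP_Bindep_stmt TP_Bzero_stmt

theorem TP_TA_TA1_stmt : TP.TA.TA1_stmt :=
  TP.TA.TA1

theorem TP_TA_TA2_stmt : TP.TA.TA2_stmt :=
  TP.TA.TA2

theorem TP_TA_TA5_stmt : TP.TA.TA5_stmt :=
  TP.TA.TA5

theorem TP_TA_TA6_stmt : TP.TA.TA6_stmt :=
  TP.TA.TA6 DP_IF_stmt DP_OF_stmt DP_OT_stmt DP_AC_stmt DP_PO_stmt

theorem TP_TA_TA7_stmt : TP.TA.TA7_stmt :=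
  TP.TA.TA7 DP_PO_stmt TP_TA_TA5_stmt TP_TA_TA6_stmt

theorem TP_TA_TA8_stmt : TP.TA.TA8_stmt :=
  TP.TA.TA8 TP_TA_TA7_stmt

theorem TP_TA_TA9_stmt : TP.TA.TA9_stmt :=
  TP.TA.TA9 DP_PO_stmt

theorem DP_SO_stmt : DP.SO_stmt :=
  DP.Asm_SO

theorem DP_GO_stmt : DP.GO_stmt :=
  DP.Asm_GO

theorem DP_GI_stmt : DP.GI_stmt :=
  DP.Asm_GI

theorem TP_TA_TA10_stmt : TP.TA.TA10_stmt :=
  TP.TA.TA10 TP_TA_TA1_stmt TP_TA_TA2_stmt TP_TA_TA9_stmt DP_PO_stmt DP_SI_stmt DP_SO_stmt DP_GO_stmt DP_GI_stmt DP_QO_stmt DP_QI_stmt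

theorem TP_TA_TA11_stmt : TP.TA.TA11_stmt :=
  TP.TA.TA11 TP_TA_TA1_stmt TP_TA_TA2_stmt DP_CG1_stmt DP_CG2_stmt TP_DE_stmt

theorem TP_TA_TA12_stmt : TP.TA.TA12_stmt :=
  TP.TA.TA12 DP_CG1_stmt DP_CG2_stmt TP_DA_stmt TP_TA_TA1_stmt TP_TA_TA2_stmt TP_TA_TA11_stmt

theorem TP_TA_TA13_stmt : TP.TA.TA13_stmt :=
  TP.TA.TA13 DP_PO_stmt TP_BN_stmt TP_TA_TA1_stmt TP_TA_TA2_stmt TP_TA_TA8_stmt TP_TA_TA10_stmt TP_TA_TA11_stmt TP_TA_TA12_stmt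

theorem TP_TA_TA3_stmt : TP.TA.TA3_stmt :=
  TP.TA.TA3 DP_TC_stmt

theorem TP_TA_TA4_stmt : TP.TA.TA4_stmt :=
  TP.TA.TA4 TP_TA_TA1_stmt TP_TA_TA2_stmt DP_TC_stmt

theorem TP_TA_TA14_stmt : TP.TA.TA14_stmt :=
  TP.TA.TA14 TP_TA_TA2_stmt

theorem TP_TA_TA15_stmt : TP.TA.TA15_stmt :=
  TP.TA.TA15

theorem TP_TA_TA16_stmt : TP.TA.TA16_stmt :=
  TP.TA.TA16 TP_Bindep_stmt TP_Bzero_stmt

theorem TP_TA_TA17_stmt : TP.TA.TA17_stmt :=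
  TP.TA.TA17 TP_Bindep_stmt TP_Bzero_stmt TP_Bflip_stmt TP_TA_TA1_stmt TP_TA_TA2_stmt TP_TA_TA3_stmt TP_TA_TA4_stmt TP_TA_TA14_stmt TP_TA_TA15_stmt TP_TA_TA16_stmt

theorem TP_TA_TA18_stmt : TP.TA.TA18_stmt :=
  TP.TA.TA18

theorem TP_CUT6_stmt : TP.CUT6_stmt :=
  TP.TA.TA19 TP_TB4_stmt TP_TA_TA13_stmt TP_TA_TA17_stmt TP_TA_TA18_stmt TP_DB_stmt TP_DL_stmt TP_C2_stmt

theorem TP_TH_stmt : TP.TH_stmt :=
  TP.TH TP_TB4_stmt TP_TB7_stmt TP_TB9_stmt TP_TB10_stmt TP_CUT6_stmt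

theorem TP_TH3_stmt : TP.TH3_stmt :=
  TP.TH3 TP_UI7_stmt TP_TH_stmt

theorem TP_PK5_stmt : TP.PK5_stmt :=
  TP.PK5 TP_PP11_stmt TP_PP12_stmt TP_GXL_stmt TP_K_LG_stmt TP_K_GSB_stmt TP_K_QAA_stmt TP_UI7_stmt TP_C1_stmt TP_Bsym_stmt TP_Bmarg_stmt

theorem TP_PK2_stmt : TP.PK2_stmt :=
  TP.PK2 TP_DUAL_stmt TP_PP10_stmt TP_PP30_stmt

theorem TP_PK6_stmt : TP.PK6_stmt :=
  TP.PK6

theorem TP_PK1_stmt : TP.PK1_stmt :=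
  TP.PK1

theorem TP_PK3_stmt : TP.PK3_stmt :=
  TP.PK3 TP_DUAL_stmt TP_GD1_stmt TP_PP30_stmt

theorem TP_PK4_stmt : TP.PK4_stmt :=
  TP.PK4 TP_GD1_stmt TP_DUAL_stmt TP_PK1_stmt TP_PK3_stmt

theorem TP_CORE_stmt : TP.CORE_stmt :=
  TP.PK7 TP_UJ5_stmt TP_PK5_stmt TP_PK2_stmt TP_PK6_stmt TP_PK4_stmt TP_PP20_stmt TP_K_LG_stmt TP_K_LQ_stmt

theorem TP_PL_stmt : TP.PL_stmt :=
  TP.PP36 DP_AM_stmt TP_Bindep_stmt TP_Bzero_stmt TP_UI7_stmt TP_K_GSB_stmt TP_K_QAA_stmt TP_PP33_stmt TP_PP36_L_stmt TP_PP35_stmt TP_TH3_stmt TP_CORE_stmt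

theorem TP_U1ii_stmt : TP.U1ii_stmt :=
  TP.PP6 TP_PP4_stmt TP_PP5_stmt TP_K_CHX_stmt TP_K_LQ_stmt TP_Bflip_stmt TP_UI7_stmt TP_UI8_stmt TP_PL_stmt

theorem TP_TL0_stmt : TP.TL0_stmt :=
  TP.TL0

theorem TP_TL4_stmt : TP.TL4_stmt :=
  TP.TL4

theorem TP_TL1_stmt : TP.TL1_stmt :=
  TP.TL1

theorem TP_FRP_stmt : TP.FRP_stmt :=
  TP.FRP TP_BOTH_stmt DP_LH_stmt DP_LC_stmt DP_CH2_stmt DP_RC_stmt TP_Bgen_stmt TP_Bindep_stmt TP_C1_stmt TP_Bfkg_stmt TP_Bsq_stmt DP_Bmono_stmt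

theorem TP_PVC_stmt : TP.PVC_stmt :=
  TP.PVC

theorem TP_PVI_stmt : TP.PVI_stmt :=
  TP.PVI TP_PVC_stmt DP_TC_stmt DP_AM_stmt

theorem TP_TRQ_stmt : TP.TRQ_stmt :=
  TP.TRQ TP_Bsym_stmt TP_Bzero_stmt

theorem TP_PSV_stmt : TP.PSV_stmt :=
  TP.PSV TP_PVI_stmt TP_TRQ_stmt TP_QMX_stmt TP_EXR_stmt TP_QZ_stmt

theorem DP_Bosss_stmt : DP.Bosss_stmt :=
  DP.Bosss

theorem TP_RSW_stmt : TP.RSW_stmt :=
  TP.RSW

theorem TP_GSC_stmt : TP.GSC_stmt :=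
  TP.GSC TP_RSW_stmt

theorem DP_GCC_stmt : DP.GCC_stmt :=
  DP.GCC

theorem TP_GLF_stmt : TP.GLF_stmt :=
  TP.GLF

theorem TP_GLL_stmt : TP.GLL_stmt :=
  TP.GLL

theorem TP_GFU_stmt : TP.GFU_stmt :=
  TP.GFU TP_Bfkg_stmt TP_Bzero_stmt TP_GLL_stmt

theorem DP_GV1_stmt : DP.GV1_stmt :=
  DP.GV1 DP_LH_stmt

theorem TP_GV2_stmt : TP.GV2_stmt :=
  TP.GV2 DP_LH_stmt TP_C1_stmt TP_Bindep_stmt TP_Bmarg_stmt TP_GLL_stmt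

theorem TP_GV3_stmt : TP.GV3_stmt :=
  TP.GV3 TP_Bfkg_stmt TP_Bzero_stmt TP_C1_stmt TP_GSC_stmt DP_GCC_stmt TP_GLF_stmt TP_GLL_stmt TP_GFU_stmt DP_GV1_stmt TP_GV2_stmt

theorem TP_BKP_stmt : TP.BKP_stmt :=
  TP.BKP

theorem TP_F3R_stmt : TP.F3R_stmt :=
  TP.F3R TP_BKP_stmt

theorem TP_F3D_stmt : TP.F3D_stmt :=
  TP.F3D TP_F3R_stmt TP_BKP_stmt

theorem TP_F3V_stmt : TP.F3V_stmt :=
  TP.F3V TP_BKP_stmt

theorem TP_GPV_stmt : TP.GPV_stmt :=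
  TP.GPV

theorem TP_GTR_stmt : TP.GTR_stmt :=
  TP.GTR TP_Bsym_stmt TP_Bmarg_stmt

theorem DP_GFM_stmt : DP.GFM_stmt :=
  DP.GFM

theorem TP_F3_stmt : TP.F3_stmt :=
  TP.F3 DP_Bosss_stmt TP_GV3_stmt TP_C2_stmt TP_BKP_stmt TP_F3R_stmt TP_F3D_stmt TP_F3V_stmt TP_GPV_stmt TP_GTR_stmt DP_GFM_stmt

theorem TP_GRO_stmt : TP.GRO_stmt :=
  TP.GRO TP_F3_stmt TP_QMX_stmt TP_QZ_stmt

theorem TP_SUM_stmt : TP.SUM_stmt :=
  TP.SUM TP_GRO_stmt TP_EXR_stmt TP_QZ_stmt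

theorem TP_PSU_stmt : TP.PSU_stmt :=
  TP.PSU TP_PSV_stmt TP_SUM_stmt

theorem TP_Bstab_stmt : TP.Bstab_stmt :=
  TP.Bstab

theorem TP_Bcongr_stmt : TP.Bcongr_stmt :=
  TP.Bcongr

theorem TP_ST_stmt : TP.ST_stmt :=
  TP.ST TP_PSU_stmt TP_Bstab_stmt TP_Bcongr_stmt DP_Bmono_stmt TP_EXR_stmt

theorem TP_Brusso_stmt : TP.Brusso_stmt :=
  TP.Brusso

theorem TP_Banti_stmt : TP.Banti_stmt :=
  TP.Banti

theorem TP_WIN_stmt : TP.WIN_stmt :=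
  TP.WIN TP_FRP_stmt TP_ST_stmt TP_GRO_stmt TP_QMX_stmt TP_EXR_stmt TP_TRQ_stmt TP_QZ_stmt TP_Brusso_stmt TP_Banti_stmt TP_GLF_stmt

theorem DP_ABS_stmt : DP.ABS_stmt :=
  DP.ABS

theorem TP_DEC_stmt : TP.DEC_stmt :=
  TP.DEC TP_WIN_stmt DP_ABS_stmt TP_QMX_stmt TP_EXR_stmt

theorem TP_TL7_stmt : TP.TL7_stmt :=
  TP.TL7 TP_DEC_stmt TP_GRO_stmt TP_QMX_stmt TP_UI5_stmt TP_UI8_stmt DP_Bmono_stmt TP_Bmarg_stmt

theorem DP_Banti_stmt : DP.Banti_stmt :=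
  DP.Banti

theorem TP_TL2_stmt : TP.TL2_stmt :=
  TP.TL2 DP_Banti_stmt

theorem TP_TL5_stmt : TP.TL5_stmt :=
  TP.TL5 TP_PVC_stmt

theorem TP_TL6_stmt : TP.TL6_stmt :=
  TP.TL6 TP_TL5_stmt DP_AM_stmt DP_Bmono_stmt TP_Banti_stmt TP_TRQ_stmt TP_UI5_stmt

theorem TP_TL8_stmt : TP.TL8_stmt :=
  TP.TL8 DP_AM_stmt TP_Banti_stmt TP_TL2_stmt TP_TL4_stmt TP_TL6_stmt

theorem TP_TL9_stmt : TP.TL9_stmt :=
  TP.TL9

theorem TP_TL10_stmt : TP.TL10_stmt :=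
  TP.TL10 TP_TL0_stmt TP_TL1_stmt TP_TL4_stmt TP_TL7_stmt TP_TL8_stmt TP_TL9_stmt DP_AM_stmt

theorem TP_TL3_stmt : TP.TL3_stmt :=
  TP.TL3

theorem TP_TL11_stmt : TP.TL11_stmt :=
  TP.TL11 TP_TL5_stmt DP_AM_stmt

theorem TP_TL12_stmt : TP.TL12_stmt :=
  TP.TL12 TP_TL0_stmt TP_TL3_stmt TP_TL4_stmt TP_TL5_stmt TP_TL11_stmt DP_AM_stmt TP_TRQ_stmt TP_QMX_stmt TP_EXR_stmt TP_QZ_stmt

theorem TP_TL13_stmt : TP.TL13_stmt :=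
  TP.TL13

theorem TP_TL14_stmt : TP.TL14_stmt :=
  TP.TL14 TP_TL12_stmt TP_TL13_stmt TP_SUM_stmt TP_UI8_stmt

theorem TP_TL15_stmt : TP.TL15_stmt :=
  TP.TL15

theorem TP_TL16_stmt : TP.TL16_stmt :=
  TP.TL16

theorem TP_TL17_stmt : TP.TL17_stmt :=
  TP.TL17 TP_UI8_stmt

theorem TP_D4_stmt : TP.D4_stmt :=
  TP.D4

theorem TP_U3_stmt : TP.U3_stmt :=
  TP.TL18 TP_TL0_stmt TP_TL4_stmt TP_TL10_stmt TP_TL14_stmt TP_TL15_stmt TP_TL16_stmt TP_TL17_stmt TP_D4_stmt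

theorem TP_U4_stmt : TP.U4_stmt :=
  Pool.Agent.helper82.SW.asm_U4

theorem TP_CRIT_stmt : TP.CRIT_stmt :=
  TP.ASM_main TP_P1_stmt TP_M1_stmt TP_AC1_stmt TP_AC2_stmt TP_S1_stmt TP_S2_stmt TP_S3_stmt TP_S4_stmt TP_F1_stmt TP_F2_stmt TP_ASF3_stmt TP_U1i_stmt TP_U2i_stmt TP_U2ii_stmt TP_U1ii_stmt TP_U3_stmt TP_U4_stmt TP_QA_stmt TP_PAR_stmt

theorem Pool_Agent_helper82_SW_SGN_stmt : Pool.Agent.helper82.SW.SGN_stmt :=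
  Pool.Agent.helper82.SW.asm_SGN

end Pool.Agent.helper95.SPM
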