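import Pool.Agent.helper61.SP.SpecDX

/-! # sp, DUP: duality -/

namespace TP

open DP MeasureTheory

theorem DUP : DUP_stmt := by
  intro a b d e hab hde
  have hP : IsProbabilityMeasure P1 := by unfold P1; infer_instance
  have h1 : pv true a b d e = pv false a b d e := (TSX.2 true a b d e).2.symm
  have h2 : (Ev fun c => vcross c false a b d e) = (Ev fun c => hcross c true a b d e)ᶜ := by
    ext ω
    constructor
    · rintro ⟨u', v', hu', hv', h'⟩ ⟨u, v, hu, hv, h⟩
      obtain ⟨z, hz, hz'⟩ := DP.Asm_RC _ _ _ _ _ _ (fun z hz => hz.1) (fun z hz => hz.1) u v u' v'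
        hu hv hu' hv' h h'
      have h3 := hz.2
      rw [hz'.2] at h3
      exact absurd h3 (by simp)
    · intro h
      exact (DP.Asm_HX (col ω) true a b d e hab hde).resolve_left h
  have h3 : MeasurableSet (Ev fun c => hcross c true a b d e) := (RLM true a b d e).1.measurableSet
  rw [h1]
  unfold ph pv
  rw [h2]
  have := measureReal_add_measureReal_compl (μ := P1) h3
  rw [probReal_univ] at this
  exact this

end TP
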