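import Pool.Agent.helper61.SP.SpecDX

/-! # sp, DX8: the crossing of the rectangle and of a slightly smaller one -/

namespace TP

open DP MeasureTheory

theorem DX8 (h7 : DX7_stmt) (hDUP : DUP_stmt) : DX8_stmt := by
  have hP : IsProbabilityMeasure P1 := by unfold P1; infer_instance
  intro ε hε
  obtain ⟨δ', hδ', L, hL2, h7⟩ := h7 (ε / 4) (by positivity)
  have hδ : 0 < δ' / (1 + 2 * δ') := by positivity
  refine ⟨δ' / (1 + 2 * δ'), hδ, L, hL2, ?_⟩
  intro a b d e s hs h1 h2
  have hs2 : (2 : ℝ) ≤ s := by exact_mod_cast hL2.trans hs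
  have h1' : (s : ℝ) * (1 + 2 * δ') ≤ δ' * (b - a) := by
    rw [div_mul_eq_mul_div, le_div_iff₀ (by positivity)] at h1
    exact h1
  have h2' : (s : ℝ) * (1 + 2 * δ') ≤ δ' * (e - d) := by
    rw [div_mul_eq_mul_div, le_div_iff₀ (by positivity)] at h2
    exact h2
  have k1 : (s : ℝ) ≤ δ' * ((b - s) - (a + s)) := by nlinarith
  have k2 : (s : ℝ) ≤ δ' * ((e - s) - (d + s)) := by nlinarith
  have hab : (0 : ℝ) < (b - s) - (a + s) := by
    by_contra hc
    push Not at hc
    nlinarith
  have hde : (0 : ℝ) < (e - s) - (d + s) := by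
    by_contra hc
    push Not at hc
    nlinarith
  have hab' : a + s < b - s := by
    have : ((a + s : ℤ) : ℝ) < ((b - s : ℤ) : ℝ) := by push_cast; linarith
    exact_mod_cast this
  have hde' : d + s < e - s := by
    have : ((d + s : ℤ) : ℝ) < ((e - s : ℤ) : ℝ) := by push_cast; linarith
    exact_mod_cast this
  have hs0 : 0 < s := by omega
  set F := Ev fun c => hcross c true a b d e with hF
  set G := Ev fun c => hcross c true (a + s) (b - s) (d + s) (e - s) with hG
  set F₁ := Ev fun c => hcross c true (a + s) (b - s) d e with hF₁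
  have hFF : F ⊆ F₁ := fun ω hω =>
    RHM.1 (col ω) true _ _ _ _ _ _ _ _ (by omega) (by omega) (by omega) (by omega) (by omega) hω
  have hGF : G ⊆ F₁ := fun ω hω =>
    RHM.1 (col ω) true _ _ _ _ _ _ _ _ (by omega) (by omega) (by omega) (by omega) (by omega) hω
  have mF : MeasurableSet F := (RLM true a b d e).1.measurableSet
  have mG : MeasurableSet G := (RLM true (a + s) (b - s) (d + s) (e - s)).1.measurableSet
  have e1 : Pr (F \ G) ≤ Pr F₁ - Pr G := by
    have : Pr (F \ G) ≤ Pr (F₁ \ G) :=
      measureReal_mono (Set.sdiff_subset_sdiff_left hFF) (measure_ne_top _ _)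
    refine this.trans (le_of_eq ?_)
    exact measureReal_diff hGF mG
  have e2 : Pr (G \ F) ≤ Pr F₁ - Pr F := by
    have : Pr (G \ F) ≤ Pr (F₁ \ F) :=
      measureReal_mono (Set.sdiff_subset_sdiff_left hGF) (measure_ne_top _ _)
    refine this.trans (le_of_eq ?_)
    exact measureReal_diff hFF mF
  -- left and right side
  have p1 : Pr F₁ ≤ Pr F + 2 * (ε / 4) := by
    have g1 := (h7 a b d e s hs (by nlinarith) (by nlinarith)).1
    have g2 := (h7 (a + s) b d e s hs (by push_cast; nlinarith) (by nlinarith)).2.1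
    have g3 : Pr F₁ = ph true (a + s) (b - s) d e := rfl
    have g4 : Pr F = ph true a b d e := rfl
    rw [g3, g4]
    linarith
  -- top and bottom
  have p2 : Pr F₁ ≤ Pr G + 2 * (ε / 4) := by
    have g1 := (h7 (a + s) (b - s) d e s hs (by push_cast; linarith) (by nlinarith)).2.2.1
    have g2 := (h7 (a + s) (b - s) (d + s) e s hs (by push_cast; linarith)
      (by push_cast; nlinarith)).2.2.2
    have g3 : Pr F₁ = ph true (a + s) (b - s) d e := rfl
    have g4 : Pr G = ph true (a + s) (b - s) (d + s) (e - s) := rfl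
    have g5 := hDUP (a + s) (b - s) d e (by omega) (by omega)
    have g6 := hDUP (a + s) (b - s) (d + s) (e - s) (by omega) (by omega)
    rw [g3, g4]
    linarith
  linarith

end TP
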