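import Pool.Agent.helper61.SP.SpecDX

/-! # sp, DXF: the spectral sample does not come close to the boundary -/

namespace TP

open DP MeasureTheory

theorem DXF_hh (n : ℕ) : n ≤ hh n := by
  unfold hh
  apply Nat.le_floor
  have h3 : (0 : ℝ) < √3 := Real.sqrt_pos.2 (by norm_num)
  have h4 : √3 ≤ 2 := by
    rw [Real.sqrt_le_left (by norm_num)]
    norm_num
  rw [le_div_iff₀ h3]
  have : (0 : ℝ) ≤ n := Nat.cast_nonneg n
  nlinarith

theorem DXF (h8 : DX8_stmt) (h9 : DX9_stmt) (hUJ4 : UJ4_stmt) : D4_stmt := by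
  intro δ hδ
  obtain ⟨δ₁, hδ₁, L, hL2, h8⟩ := h8 (δ / 4) (by positivity)
  obtain ⟨k, hk⟩ : ∃ k : ℕ, 2 / δ₁ < (2 : ℝ) ^ k := by
    obtain ⟨k, hk⟩ := pow_unbounded_of_one_lt (2 / δ₁) (one_lt_two (α := ℝ))
    exact ⟨k, hk⟩
  have hk' : 2 ≤ δ₁ * 2 ^ k := by
    rw [div_lt_iff₀ hδ₁] at hk
    linarith
  refine ⟨k, k + L.toNat, fun i hi => ?_⟩
  obtain ⟨r, rfl⟩ : ∃ r, i = k + r := ⟨i - k, by omega⟩
  have hr : L.toNat ≤ r := by omega
  have hLr : L ≤ 2 ^ r := by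
    have h1 : r < 2 ^ r := Nat.lt_two_pow_self
    have h2 : (r : ℤ) < 2 ^ r := by exact_mod_cast h1
    omega
  set s : ℤ := 2 ^ r + 1 with hs
  have hrr : k + r - k = r := by omega
  have hr1 : (1 : ℝ) ≤ 2 ^ r := one_le_pow₀ (by norm_num)
  have hn1 : (1 : ℝ) ≤ 2 ^ (k + r) := one_le_pow₀ (by norm_num)
  have hsr : (s : ℝ) ≤ δ₁ * 2 ^ (k + r) := by
    rw [hs]
    push_cast
    calc (2 : ℝ) ^ r + 1 ≤ 2 * 2 ^ r := by linarith
      _ ≤ (δ₁ * 2 ^ k) * 2 ^ r := mul_le_mul_of_nonneg_right hk' (by positivity)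
      _ = δ₁ * 2 ^ (k + r) := by rw [pow_add]; ring
  have hhn := DXF_hh (2 ^ (k + r))
  have hhn' : (2 : ℝ) ^ (k + r) ≤ (hh (2 ^ (k + r)) : ℝ) := by exact_mod_cast hhn
  have h1 := h8 1 (2 * 2 ^ (k + r)) 0 (hh (2 ^ (k + r))) s (by omega)
    (by
      push_cast
      refine hsr.trans (mul_le_mul_of_nonneg_left ?_ hδ₁.le)
      linarith)
    (by
      push_cast
      refine hsr.trans (mul_le_mul_of_nonneg_left ?_ hδ₁.le)
      linarith)
  have hF := (hUJ4 (k + r)).1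
  have hG : DP.Dep (Ev fun c => hcross c true (1 + s) (2 * 2 ^ (k + r) - s) (0 + s)
      ((hh (2 ^ (k + r)) : ℤ) - s)) {v | v ∈ VV (k + r) ∧ v ∉ {v | ¬ Bulk (k + r) k v}} := by
    intro b b' hb
    have hc : ∀ v ∈ rect (1 + s) (2 * 2 ^ (k + r) - s) (0 + s) ((hh (2 ^ (k + r)) : ℤ) - s),
        col b v = col b' v := by
      rintro v ⟨v1, v2, v3, v4⟩
      have e1 := br_fst v
      have e2 := br_snd v
      refine hb (br v) ⟨?_, ?_⟩
      · unfold VV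
        rw [Finset.mem_filter, Finset.mem_product, Finset.mem_Icc, Finset.mem_Icc]
        have := br_even v
        omega
      · rw [Set.mem_setOf_eq, not_not]
        rintro w hw
        have hw' : max ((br v).1 - w.1).natAbs ((br v).2 - w.2).natAbs ≤ 2 ^ (k + r - k) := hw
        rw [hrr] at hw'
        have h5 : ((2 ^ r : ℕ) : ℤ) = 2 ^ r := by push_cast; ring
        refine ⟨?_, ?_, ?_, ?_⟩ <;> omega
    show hcross (col b) _ _ _ _ _ ↔ hcross (col b') _ _ _ _ _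
    unfold hcross
    refine exists_congr fun u => exists_congr fun v => ?_
    rw [Conn.congr hc]
  have h2 := h9 (Fc (k + r)) _ (VV (k + r)) {v | ¬ Bulk (k + r) k v} hF hG
  refine h2.trans ?_
  have h3 : Pr (Fc (k + r) \ (Ev fun c => hcross c true (1 + s) (2 * 2 ^ (k + r) - s) (0 + s)
      ((hh (2 ^ (k + r)) : ℤ) - s))) + Pr ((Ev fun c => hcross c true (1 + s)
      (2 * 2 ^ (k + r) - s) (0 + s) ((hh (2 ^ (k + r)) : ℤ) - s)) \ Fc (k + r)) ≤ δ / 4 := h1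
  linarith

end TP
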