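import Pool.Agent.helper82.SW.SpecW

/-!
# SP: the final theorem from the criterion
-/

namespace Pool.Agent.helper95.SPM

open MeasureTheory Filter Topology TopologicalSpace SpectralPivotal
open scoped BoundedContinuousFunction

/-- Limits along powers of two. -/
theorem final_seq (hCRIT : TP.CRIT_stmt) (hSGN : Pool.Agent.helper82.SW.SGN_stmt)
    [MeasurableSpace (Compacts unitSquare)] [BorelSpace (Compacts unitSquare)]
    (μ ν : Measure (Compacts unitSquare)) [IsProbabilityMeasure μ] [IsProbabilityMeasure ν]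
    (s : ℕ → ℕ) (hs : StrictMono s) (hμ : Pool.Agent.helper82.SW.SpecLim s μ)
    (hν : Pool.Agent.helper82.SW.PivLim s ν) : μ ⟂ₘ ν := by
  refine hSGN s μ ν hs ?_ hμ hν
  intro η hη
  obtain ⟨E, φ, h⟩ := hCRIT (Set.range s) (Set.infinite_range_of_injective hs.injective) η hη
  refine ⟨E, φ, fun i₀ => ?_⟩
  obtain ⟨i, hi, hiI, hE, h1, h2⟩ := h i₀
  exact ⟨i, hiI, hi, hE, h1, h2⟩

/-- The full limits. -/
theorem final (hCRIT : TP.CRIT_stmt) (hSGN : Pool.Agent.helper82.SW.SGN_stmt)
    [MeasurableSpace (Compacts unitSquare)] [BorelSpace (Compacts unitSquare)]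
    (μ ν : Measure (Compacts unitSquare)) [IsProbabilityMeasure μ] [IsProbabilityMeasure ν]
    (hμ : IsSpectralLimit μ) (hν : IsPivotalLimit ν) :
    ∃ A : Set (Compacts unitSquare), MeasurableSet A ∧ μ A = 1 ∧ ν A = 0 := by
  have h2 : Tendsto (fun k : ℕ => 2 ^ k) atTop (atTop : Filter ℕ) :=
    tendsto_pow_atTop_atTop_of_one_lt one_lt_two
  have h := final_seq hCRIT hSGN μ ν id strictMono_id (fun g => (hμ g).comp h2)
    (fun g => (hν g).comp h2)
  obtain ⟨B, hB, h1, h3⟩ := h
  refine ⟨Bᶜ, hB.compl, ?_, h3⟩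
  rw [measure_compl hB (measure_ne_top _ _), h1, measure_univ, tsub_zero]

end Pool.Agent.helper95.SPM
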