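import Pool.Agent.helper95.SP.Asm
import Pool.Agent.helper82.SW.Final

/-!
# Project sp (MP_7800de_pr): the final theorems without hypotheses
-/

namespace Pool.Agent.helper95.SPM

open MeasureTheory Filter Topology TopologicalSpace SpectralPivotal

/-- Mutual singularity along sequences of sizes which contain infinitely many powers of two. -/
theorem main_singular [MeasurableSpace (Compacts unitSquare)] [BorelSpace (Compacts unitSquare)]
    (φ : ℕ → ℕ) (hφ : Tendsto φ atTop atTop) (hp : ∃ᶠ k in atTop, ∃ i, φ k = 2 ^ i)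
    (μ ν : Measure (Compacts unitSquare)) [IsProbabilityMeasure μ] [IsProbabilityMeasure ν]
    (hμ : SpectralLimitAlong φ μ) (hν : PivotalLimitAlong φ ν) :
    μ ⟂ₘ ν ∧ ∃ A : Set (Compacts unitSquare), MeasurableSet A ∧ μ A = 1 ∧ ν A = 0 := by
  have h := Pool.Agent.helper82.SW.Final_singular TP_CRIT_stmt φ hφ hp μ ν hμ hν
  exact ⟨h, Pool.Agent.helper82.SW.Final_set μ ν h⟩

/-- The full limits. -/
theorem main_full [MeasurableSpace (Compacts unitSquare)] [BorelSpace (Compacts unitSquare)]
    (μ ν : Measure (Compacts unitSquare)) [IsProbabilityMeasure μ] [IsProbabilityMeasure ν]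
    (hμ : IsSpectralLimit μ) (hν : IsPivotalLimit ν) :
    μ ⟂ₘ ν ∧ ∃ A : Set (Compacts unitSquare), MeasurableSet A ∧ μ A = 1 ∧ ν A = 0 :=
  main_singular (fun n => n) tendsto_id Pool.Agent.helper82.SW.Final_full μ ν hμ hν

/-- Existence of common limits along powers of two. -/
theorem main_exists [MeasurableSpace (Compacts unitSquare)] [BorelSpace (Compacts unitSquare)]
    (s : ℕ → ℕ) (hs : StrictMono s) :
    ∃ t : ℕ → ℕ, StrictMono t ∧ ∃ μ ν : Measure (Compacts unitSquare), IsProbabilityMeasure μ ∧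
      IsProbabilityMeasure ν ∧ SpectralLimitAlong (fun k => 2 ^ s (t k)) μ ∧
      PivotalLimitAlong (fun k => 2 ^ s (t k)) ν :=
  Pool.Agent.helper82.SW.Final_exists TP_PAR_stmt s hs

end Pool.Agent.helper95.SPM
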