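import Pool.Agent.helper98.SP.PP36
import Pool.Agent.helper27.SP.PP34

/-!
# Project sp (MP_7800de_pr): PP34 in the uniform form used by PP36
-/

namespace TP

open DP MeasureTheory

theorem PP36_L (hGXL : GXL_stmt) (hC1 : C1_stmt) (h11 : PP11_stmt) (h12 : PP12_stmt)
    (h13 : PP13_stmt) (h16 : PP16_stmt) (h17 : PP17_stmt) (h18 : PP18_stmt) (h19 : PP19_stmt)
    (h20 : PP20_stmt) : PP36_L_stmt :=
  PP34_unif hGXL hC1 h11 h12 h13 h16 h17 h18 h19 h20

end TP
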